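import Mathlib

/-!
Abel's binomial theorem and the convolution identity for the moments of `μ_τ`.
-/

open Finset

namespace Pool.Agent.Lib.MP_31dc4f_pr

/-- `x (x+k)^(k-1) / k!`, with value `1` at `k = 0`. -/
noncomputable def abA (x : ℝ) : ℕ → ℝ
  | 0 => 1
  | (k + 1) => x * (x + (k + 1)) ^ k / (k + 1).factorial

/-- `(y+m)^m / m!`. -/
noncomputable def abB (y : ℝ) (m : ℕ) : ℝ := (y + m) ^ m / m.factorial

lemma hasDerivAt_abB_zero (y : ℝ) : HasDerivAt (fun y => abB y 0) 0 y := by
  simpa [abB] using hasDerivAt_const y (1 : ℝ)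

lemma hasDerivAt_abB_succ (m : ℕ) (y : ℝ) :
    HasDerivAt (fun y => abB y (m + 1)) (abB (y + 1) m) y := by
  have h1 : HasDerivAt (fun y : ℝ => y + ((m + 1 : ℕ) : ℝ)) 1 y :=
    (hasDerivAt_id y).add_const _
  have h2 := (h1.pow (m + 1)).div_const ((m + 1).factorial : ℝ)
  have e : ((m + 1 : ℕ) : ℝ) * (y + ((m + 1 : ℕ) : ℝ)) ^ (m + 1 - 1) * 1 / ((m + 1).factorial : ℝ)
      = abB (y + 1) m := by
    unfold abB
    rw [Nat.factorial_succ]
    have : (m.factorial : ℝ) ≠ 0 := by positivity
    push_cast
    have h3 : (m : ℝ) + 1 ≠ 0 := by positivity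
    field_simp
    ring
  rw [← e]
  exact h2

lemma abel_zero_point (n : ℕ) (x : ℝ) :
    ∑ k ∈ range (n + 2), abA x k * abB (-x - (n + 1)) (n + 1 - k) = 0 := by
  have h0 : (fwdDiff (1 : ℝ))^[n + 1] (fun r : ℝ ↦ r ^ n) x = 0 := by
    rw [fwdDiff_iter_pow_eq_zero_of_lt (Nat.lt_succ_self n)]
    rfl
  rw [fwdDiff_iter_eq_sum_shift] at h0
  have key : ∀ k ∈ range (n + 2), abA x k * abB (-x - (n + 1)) (n + 1 - k) =
      x / (n + 1).factorial *
        (((-1 : ℤ) ^ (n + 1 - k) * (n + 1).choose k) • (x + k • (1 : ℝ)) ^ n) := by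
    intro k hk
    have hk' : k ≤ n + 1 := by
      have := mem_range.mp hk
      omega
    have hfac : ((n + 1).choose k : ℝ) = (n + 1).factorial / (k.factorial * (n + 1 - k).factorial) := by
      rw [Nat.cast_choose ℝ hk']
    have e1 : (-x - ((n : ℝ) + 1) + ((n + 1 - k : ℕ) : ℝ)) = -(x + k) := by
      rw [Nat.cast_sub hk']
      push_cast
      ring
    have hn : ((n + 1).factorial : ℝ) ≠ 0 := by positivity
    have hkf : (k.factorial : ℝ) ≠ 0 := by positivity
    have hnk : ((n + 1 - k).factorial : ℝ) ≠ 0 := by positivity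
    unfold abB
    rw [e1, neg_pow, zsmul_eq_mul]
    push_cast
    rw [hfac, nsmul_eq_mul, mul_one]
    rcases k with _ | k
    · simp only [abA, Nat.sub_zero, Nat.cast_zero, add_zero, Nat.factorial_zero, Nat.cast_one]
      field_simp
      ring
    · simp only [abA]
      have e2 : n + 1 - (k + 1) = n - k := by omega
      have e3 : (x + ((k : ℝ) + 1)) ^ n = (x + ((k : ℝ) + 1)) ^ k * (x + ((k : ℝ) + 1)) ^ (n - k) := by
        rw [← pow_add]; congr 1; omega
      rw [e2] at hnk ⊢
      push_cast
      rw [e3]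
      field_simp
  rw [sum_congr rfl key, ← mul_sum]
  rw [h0, mul_zero]

/-- **Abel's binomial theorem**, normalised by factorials. -/
theorem abel_identity (n : ℕ) : ∀ x y : ℝ,
    ∑ k ∈ range (n + 1), abA x k * abB y (n - k) = abB (x + y) n := by
  induction n with
  | zero =>
    intro x y
    simp [abA, abB]
  | succ n ih =>
    intro x y
    have hd : ∀ y : ℝ, HasDerivAt (fun y => (∑ k ∈ range (n + 1 + 1), abA x k * abB y (n + 1 - k))
        - abB (x + y) (n + 1)) 0 y := by
      intro y
      have h1 : HasDerivAt (fun y => ∑ k ∈ range (n + 1 + 1), abA x k * abB y (n + 1 - k))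
          (∑ k ∈ range (n + 1), abA x k * abB (y + 1) (n - k)) y := by
        have hs : ∀ y, (∑ k ∈ range (n + 1 + 1), abA x k * abB y (n + 1 - k)) =
            (∑ k ∈ range (n + 1), abA x k * abB y (n - k + 1)) + abA x (n + 1) * abB y 0 := by
          intro y
          rw [sum_range_succ, Nat.sub_self]
          congr 1
          refine sum_congr rfl fun k hk => ?_
          have := mem_range.mp hk
          rw [show n + 1 - k = n - k + 1 by omega]
        have hs' : (fun y => ∑ k ∈ range (n + 1 + 1), abA x k * abB y (n + 1 - k)) =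
          fun y => (∑ k ∈ range (n + 1), abA x k * abB y (n - k + 1)) + abA x (n + 1) * abB y 0 :=
          funext hs
        rw [hs']
        have := (HasDerivAt.fun_sum (u := range (n + 1))
          (A := fun k y => abA x k * abB y (n - k + 1))
          (A' := fun k => abA x k * abB (y + 1) (n - k)) (x := y)
          (fun k _ => (hasDerivAt_abB_succ (n - k) y).const_mul (abA x k))).add
          ((hasDerivAt_abB_zero y).const_mul (abA x (n + 1)))
        have e0 : (∑ k ∈ range (n + 1), abA x k * abB (y + 1) (n - k)) + abA x (n + 1) * 0 =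
            ∑ k ∈ range (n + 1), abA x k * abB (y + 1) (n - k) := by ring
        rw [e0] at this
        exact this
      have h2 : HasDerivAt (fun y => abB (x + y) (n + 1)) (abB (x + y + 1) n) y := by
        have := (hasDerivAt_abB_succ n (x + y)).comp y ((hasDerivAt_id y).const_add x)
        simpa [Function.comp_def] using this
      have h3 := h1.sub h2
      rw [ih x (y + 1)] at h3
      have e : abB (x + (y + 1)) n - abB (x + y + 1) n = 0 := by
        rw [add_assoc]; simp
      rw [e] at h3
      exact h3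
    have hconst := is_const_of_deriv_eq_zero (fun y => (hd y).differentiableAt)
      (fun y => (hd y).deriv) y (-x - (n + 1))
    have hz := abel_zero_point n x
    have h5 : abB (x + (-x - ((n : ℝ) + 1))) (n + 1) = 0 := by
      unfold abB
      have : x + (-x - ((n : ℝ) + 1)) + ((n + 1 : ℕ) : ℝ) = 0 := by push_cast; ring
      rw [this]
      simp
    rw [h5, sub_zero] at hconst
    have hz' : ∑ k ∈ range (n + 1 + 1), abA x k * abB (-x - (n + 1)) (n + 1 - k) = 0 := hz
    rw [hz'] at hconst
    linarith

end Pool.Agent.Lib.MP_31dc4f_pr
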