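import Pool.Agent.Lib.MP_31dc4f_pr.LinAlg

/-!
Spectral bounds.
-/

open Finset Matrix

open scoped Matrix.Norms.L2Operator ComplexOrder

namespace Pool.Agent.Lib.MP_31dc4f_pr

variable {N : ℕ}

lemma trace_pow_eq_sum (A : Matrix (Fin N) (Fin N) ℂ) (hA : A.IsHermitian) (p : ℕ) :
    trace (A ^ p) = ∑ i, ((hA.eigenvalues i : ℝ) : ℂ) ^ p := by
  have h := hA.spectral_theorem
  conv_lhs => rw [h]
  rw [← map_pow, Unitary.conjStarAlgAut_apply, trace_mul_cycle, Unitary.coe_star_mul_self, one_mul,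
    diagonal_pow, trace_diagonal]
  simp

lemma eigenvalues_le_norm (A : Matrix (Fin N) (Fin N) ℂ) (hA : A.IsHermitian) (i : Fin N) :
    |hA.eigenvalues i| ≤ ‖A‖ := by
  have h1 := hA.eigenvalues_mem_spectrum_real i
  have : Nonempty (Fin N) := ⟨i⟩
  have := spectrum.norm_le_norm_of_mem h1
  simpa using this

lemma eigenvalues_mem_Icc (B : Matrix (Fin N) (Fin N) ℂ) (hB : ‖B‖ ≤ 1) (i : Fin N) :
    (isHermitian_conjTranspose_mul_self B).eigenvalues i ∈ Set.Icc (0 : ℝ) 1 := by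
  constructor
  · exact (posSemidef_conjTranspose_mul_self B).eigenvalues_nonneg i
  · refine (le_abs_self _).trans ((eigenvalues_le_norm _ _ i).trans ?_)
    rw [l2_opNorm_conjTranspose_mul_self]
    nlinarith [norm_nonneg B]

lemma norm_pow_le_one (A : Matrix (Fin N) (Fin N) ℂ) (hA : ‖A‖ ≤ 1) (hN : 0 < N) (k : ℕ) :
    ‖A ^ k‖ ≤ 1 := by
  have : Nonempty (Fin N) := ⟨⟨0, hN⟩⟩
  induction k with
  | zero => simp
  | succ k ih =>
    rw [pow_succ]
    exact (norm_mul_le _ _).trans (by nlinarith [norm_nonneg (A ^ k), norm_nonneg A])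

lemma norm_dot_le (A : Matrix (Fin N) (Fin N) ℂ) (hA : ‖A‖ ≤ 1) (u : Fin N → ℂ)
    (hu : star u ⬝ᵥ u = 1) : ‖star u ⬝ᵥ (A *ᵥ u)‖ ≤ 1 := by
  have h1 : star u ⬝ᵥ (A *ᵥ u) = inner ℂ (WithLp.toLp 2 u) (WithLp.toLp 2 (A *ᵥ u)) := by
    rw [EuclideanSpace.inner_eq_star_dotProduct, dotProduct_comm]
  have hnorm : ‖(WithLp.toLp 2 u : EuclideanSpace ℂ (Fin N))‖ = 1 := by
    have h2 : (inner ℂ (WithLp.toLp 2 u) (WithLp.toLp 2 u) : ℂ) = 1 := by
      rw [EuclideanSpace.inner_eq_star_dotProduct, dotProduct_comm]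
      exact hu
    rw [inner_self_eq_norm_sq_to_K] at h2
    have h3 : ‖(WithLp.toLp 2 u : EuclideanSpace ℂ (Fin N))‖ ^ 2 = 1 := by
      have := congrArg (fun z : ℂ => ‖z‖) h2
      simpa using this
    nlinarith [norm_nonneg (WithLp.toLp 2 u : EuclideanSpace ℂ (Fin N))]
  rw [h1]
  refine (norm_inner_le_norm _ _).trans ?_
  have h4 := l2_opNorm_mulVec A (WithLp.toLp 2 u)
  rw [hnorm] at h4 ⊢
  calc 1 * ‖(WithLp.toLp 2 (A *ᵥ u) : EuclideanSpace ℂ (Fin N))‖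
      ≤ 1 * (‖A‖ * 1) := by
        gcongr
        exact h4
    _ ≤ 1 := by linarith

lemma dot_im_eq_zero (A : Matrix (Fin N) (Fin N) ℂ) (hA : A.IsHermitian) (u : Fin N → ℂ) :
    (star u ⬝ᵥ (A *ᵥ u)).im = 0 := by
  exact hA.im_star_dotProduct_mulVec_self u

lemma trace_pow_re_mem (B : Matrix (Fin N) (Fin N) ℂ) (hB : ‖B‖ ≤ 1) (p : ℕ) :
    0 ≤ (trace ((Bᴴ * B) ^ p)).re ∧ (trace ((Bᴴ * B) ^ p)).re ≤ N := by
  rw [trace_pow_eq_sum _ (isHermitian_conjTranspose_mul_self B) p]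
  have h : ∀ i, (0 : ℝ) ≤ (isHermitian_conjTranspose_mul_self B).eigenvalues i ^ p ∧
      (isHermitian_conjTranspose_mul_self B).eigenvalues i ^ p ≤ 1 := by
    intro i
    have := eigenvalues_mem_Icc B hB i
    exact ⟨pow_nonneg this.1 _, pow_le_one₀ this.1 this.2⟩
  have e : (∑ i, (((isHermitian_conjTranspose_mul_self B).eigenvalues i : ℝ) : ℂ) ^ p).re =
      ∑ i, (isHermitian_conjTranspose_mul_self B).eigenvalues i ^ p := by
    rw [Complex.re_sum]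
    refine sum_congr rfl fun i _ => ?_
    rw [← Complex.ofReal_pow, Complex.ofReal_re]
  rw [e]
  constructor
  · exact sum_nonneg fun i _ => (h i).1
  · calc ∑ i, (isHermitian_conjTranspose_mul_self B).eigenvalues i ^ p ≤ ∑ _i : Fin N, (1 : ℝ) :=
        sum_le_sum fun i _ => (h i).2
      _ = N := by simp

end Pool.Agent.Lib.MP_31dc4f_pr
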