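import Pool.Agent.Lib.MP_31dc4f_pr.Bounds

/-!
Compactness of the unitary group; transitivity on unit vectors.
-/

open Finset Matrix

namespace Pool.Agent.Lib.MP_31dc4f_pr

variable {N : ℕ}

lemma isCompact_unitary : IsCompact (Matrix.unitaryGroup (Fin N) ℂ : Set (Matrix (Fin N) (Fin N) ℂ)) := by
  have hK : IsCompact (Set.univ.pi fun _ : Fin N => Set.univ.pi fun _ : Fin N =>
      Metric.closedBall (0 : ℂ) 1) :=
    isCompact_univ_pi fun _ => isCompact_univ_pi fun _ => isCompact_closedBall 0 1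
  refine hK.of_isClosed_subset ?_ ?_
  · exact isClosed_unitary (R := Matrix (Fin N) (Fin N) ℂ)
  · intro U hU
    simp only [Set.mem_pi, Set.mem_univ, forall_true_left, Metric.mem_closedBall, dist_zero_right]
    intro i j
    exact entry_norm_bound_of_unitary hU i j

instance instCompactUnitary : CompactSpace (Matrix.unitaryGroup (Fin N) ℂ) :=
  isCompact_iff_compactSpace.mp isCompact_unitary

lemma exists_unitary_single (v : Fin N → ℂ) (hv : star v ⬝ᵥ v = 1) (i0 : Fin N) :
    ∃ U : Matrix.unitaryGroup (Fin N) ℂ, (U : Matrix (Fin N) (Fin N) ℂ) *ᵥ Pi.single i0 1 = v := by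
  have hnorm : ‖(WithLp.toLp 2 v : EuclideanSpace ℂ (Fin N))‖ = 1 := by
    have h2 : (inner ℂ (WithLp.toLp 2 v) (WithLp.toLp 2 v) : ℂ) = 1 := by
      rw [EuclideanSpace.inner_eq_star_dotProduct, dotProduct_comm]
      exact hv
    rw [inner_self_eq_norm_sq_to_K] at h2
    have h3 : ‖(WithLp.toLp 2 v : EuclideanSpace ℂ (Fin N))‖ ^ 2 = 1 := by
      have := congrArg (fun z : ℂ => ‖z‖) h2
      simpa using this
    nlinarith [norm_nonneg (WithLp.toLp 2 v : EuclideanSpace ℂ (Fin N))]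
  have horth : Orthonormal ℂ (({i0} : Set (Fin N)).domRestrict
      (fun _ => (WithLp.toLp 2 v : EuclideanSpace ℂ (Fin N)))) := by
    constructor
    · intro i
      exact hnorm
    · intro i j hij
      exact absurd (Subsingleton.elim i j) hij
  obtain ⟨b, hb⟩ := horth.exists_orthonormalBasis_extension_of_card_eq
    (card_ι := by simp)
  let U : Matrix (Fin N) (Fin N) ℂ := Matrix.of fun i j => (b j) i
  have hU : U ∈ Matrix.unitaryGroup (Fin N) ℂ := by
    rw [mem_unitaryGroup_iff']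
    ext j k
    have h1 : (star U * U) j k = inner ℂ (b j) (b k) := by
      rw [EuclideanSpace.inner_eq_star_dotProduct, mul_apply, dotProduct]
      refine sum_congr rfl fun i _ => ?_
      simp [U, star_apply, mul_comm]
    rw [h1, orthonormal_iff_ite.mp b.orthonormal j k, Matrix.one_apply]
  refine ⟨⟨U, hU⟩, ?_⟩
  ext i
  have h2 := hb i0 (Set.mem_singleton i0)
  simp [U, h2]

lemma exists_unitary_map (v v' : Fin N → ℂ) (hv : star v ⬝ᵥ v = 1) (hv' : star v' ⬝ᵥ v' = 1)
    (hN : 0 < N) :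
    ∃ V : Matrix.unitaryGroup (Fin N) ℂ, (V : Matrix (Fin N) (Fin N) ℂ) *ᵥ v = v' := by
  obtain ⟨U, hU⟩ := exists_unitary_single v hv ⟨0, hN⟩
  obtain ⟨U', hU'⟩ := exists_unitary_single v' hv' ⟨0, hN⟩
  refine ⟨U' * star U, ?_⟩
  rw [← hU, ← hU']
  have : ((U' * star U : Matrix.unitaryGroup (Fin N) ℂ) : Matrix (Fin N) (Fin N) ℂ) =
    (U' : Matrix (Fin N) (Fin N) ℂ) * star (U : Matrix (Fin N) (Fin N) ℂ) := rfl
  rw [this, mulVec_mulVec, mul_assoc, Unitary.coe_star_mul_self, mul_one]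

end Pool.Agent.Lib.MP_31dc4f_pr
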