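import Pool.Agent.Lib.MP_31dc4f_pr.Abel

/-!
The convolution identity `n b_n = ∑_{k=1}^n a_k b_{n-k}`.
-/

open Finset

namespace Pool.Agent.Lib.MP_31dc4f_pr

/-- `a_n(τ) = ∑_{j<n} (nτ)^j/j!`. -/
noncomputable def aC (τ : ℝ) (n : ℕ) : ℝ := ∑ j ∈ range n, (n * τ) ^ j / j.factorial

/-- `b_n(τ) = ∑_{j<n} (1-j/n)(nτ)^j/j!` for `n ≥ 1` and `b_0 = 1`. -/
noncomputable def bC (τ : ℝ) (n : ℕ) : ℝ :=
  if n = 0 then 1 else ∑ j ∈ range n, (1 - (j : ℝ) / n) * (n * τ) ^ j / j.factorial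

/-- power series with coefficients `τ^r abA i r`. -/
noncomputable def PA (τ : ℝ) (i : ℕ) : PowerSeries ℝ := PowerSeries.mk fun r => τ ^ r * abA i r

/-- power series with coefficients `τ^r abB j r`. -/
noncomputable def PB (τ : ℝ) (j : ℕ) : PowerSeries ℝ := PowerSeries.mk fun r => τ ^ r * abB j r

lemma PA_mul_PB (τ : ℝ) (i j : ℕ) : PA τ i * PB τ j = PB τ (i + j) := by
  ext n
  rw [PowerSeries.coeff_mul, PA, PB, PB]
  simp only [PowerSeries.coeff_mk]
  rw [Finset.Nat.sum_antidiagonal_eq_sum_range_succ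
    (fun r s => τ ^ r * abA i r * (τ ^ s * abB j s)) n]
  have := abel_identity n (i : ℝ) (j : ℝ)
  push_cast
  rw [← this, mul_sum]
  refine sum_congr rfl fun k hk => ?_
  have hk' := mem_range.mp hk
  have : τ ^ n = τ ^ k * τ ^ (n - k) := by
    rw [← pow_add]; congr 1; omega
  rw [this]
  ring

/-- `T_n(j)`. -/
noncomputable def TT (τ : ℝ) (n j : ℕ) : ℝ := PowerSeries.coeff n (PowerSeries.X ^ j * PB τ j)

/-- `U_n(i)`. -/
noncomputable def UU (τ : ℝ) (n i : ℕ) : ℝ := PowerSeries.coeff n (PowerSeries.X ^ i * PA τ i)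

lemma TT_of_lt {τ : ℝ} {n j : ℕ} (h : n < j) : TT τ n j = 0 := by
  unfold TT
  rw [PowerSeries.coeff_X_pow_mul', if_neg (by omega)]

lemma UU_of_lt {τ : ℝ} {n j : ℕ} (h : n < j) : UU τ n j = 0 := by
  unfold UU
  rw [PowerSeries.coeff_X_pow_mul', if_neg (by omega)]

lemma TT_eq {τ : ℝ} {n j : ℕ} (h : j ≤ n) : TT τ n j = τ ^ (n - j) * abB j (n - j) := by
  unfold TT
  rw [PowerSeries.coeff_X_pow_mul', if_pos h, PB, PowerSeries.coeff_mk]

lemma UU_eq {τ : ℝ} {n j : ℕ} (h : j ≤ n) : UU τ n j = τ ^ (n - j) * abA j (n - j) := by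
  unfold UU
  rw [PowerSeries.coeff_X_pow_mul', if_pos h, PA, PowerSeries.coeff_mk]

lemma conv_UU_TT (τ : ℝ) (n i j : ℕ) :
    ∑ p ∈ antidiagonal n, TT τ p.1 j * UU τ p.2 i = TT τ n (i + j) := by
  unfold TT UU
  rw [← PowerSeries.coeff_mul, ← PA_mul_PB]
  congr 1
  ring

lemma aC_eq (τ : ℝ) (n : ℕ) (N : ℕ) (h : n ≤ N) : aC τ n = ∑ j ∈ range N, TT τ n (j + 1) := by
  have h1 : ∑ j ∈ range N, TT τ n (j + 1) = ∑ j ∈ range n, TT τ n (j + 1) := by
    symm
    apply sum_subset (range_subset_range.mpr h)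
    intro x _ hx
    apply TT_of_lt
    simp only [mem_range] at hx
    omega
  rw [h1, aC, ← sum_range_reflect]
  refine sum_congr rfl fun j hj => ?_
  have hj' := mem_range.mp hj
  rw [TT_eq (by omega)]
  have e : n - (j + 1) = n - 1 - j := by omega
  rw [e]
  unfold abB
  have e2 : ((j + 1 : ℕ) : ℝ) + ((n - 1 - j : ℕ) : ℝ) = n := by
    rw [← Nat.cast_add]
    congr 1
    omega
  rw [e2, mul_pow]
  ring

lemma bC_eq (τ : ℝ) (n : ℕ) (N : ℕ) (h : n ≤ N) :
    bC τ n = ∑ i ∈ range (N + 1), UU τ n i := by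
  have h1 : ∑ i ∈ range (N + 1), UU τ n i = ∑ i ∈ range (n + 1), UU τ n i := by
    symm
    apply sum_subset (range_subset_range.mpr (by omega))
    intro x _ hx
    apply UU_of_lt
    simp only [mem_range] at hx
    omega
  rw [h1]
  rcases Nat.eq_zero_or_pos n with rfl | hn
  · simp [bC, UU_eq, abA]
  · rw [sum_range_succ']
    have h0 : UU τ n 0 = 0 := by
      rw [UU_eq (Nat.zero_le _)]
      obtain ⟨m, rfl⟩ : ∃ m, n = m + 1 := ⟨n - 1, by omega⟩
      simp [abA]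
    rw [h0, add_zero, bC, if_neg (by omega), ← sum_range_reflect]
    refine sum_congr rfl fun j hj => ?_
    have hj' := mem_range.mp hj
    rw [UU_eq (by omega)]
    have e : n - (j + 1) = n - 1 - j := by omega
    rw [e]
    have hnR : (n : ℝ) ≠ 0 := by positivity
    rcases Nat.eq_zero_or_pos (n - 1 - j) with h0 | h0
    · rw [h0]
      simp [abA]
    · obtain ⟨m, hm⟩ : ∃ m, n - 1 - j = m + 1 := ⟨n - 1 - j - 1, by omega⟩
      rw [hm]
      have hn' : (n : ℝ) = (j + 1) + (m + 1) := by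
        have : n = (j + 1) + (m + 1) := by omega
        rw [this]; push_cast; ring
      simp only [abA]
      rw [mul_pow]
      push_cast
      rw [← hn']
      have : (1 - ((m : ℝ) + 1) / n) = (j + 1) / n := by
        field_simp
        rw [hn']; ring
      rw [this]
      field_simp
      ring

lemma nbC_eq (τ : ℝ) (n : ℕ) : (n : ℝ) * bC τ n = ∑ l ∈ range n, ((l + 1 : ℕ) : ℝ) * TT τ n (l + 1) := by
  rcases Nat.eq_zero_or_pos n with rfl | hn
  · simp
  rw [bC, if_neg (by omega), mul_sum, ← sum_range_reflect]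
  refine sum_congr rfl fun j hj => ?_
  have hj' := mem_range.mp hj
  rw [TT_eq (by omega)]
  have e : n - (j + 1) = n - 1 - j := by omega
  rw [e]
  unfold abB
  have e2 : ((j + 1 : ℕ) : ℝ) + ((n - 1 - j : ℕ) : ℝ) = n := by
    rw [← Nat.cast_add]
    congr 1
    omega
  have e3 : ((n - 1 - j : ℕ) : ℝ) = n - ((j + 1 : ℕ) : ℝ) := by linarith
  rw [e2, mul_pow]
  have hnR : (n : ℝ) ≠ 0 := by positivity
  have : (n : ℝ) * (1 - ((n - 1 - j : ℕ) : ℝ) / n) = ((j + 1 : ℕ) : ℝ) := by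
    rw [e3]
    field_simp
    ring
  rw [← this]
  ring

lemma conv_identity_aux (τ : ℝ) (n : ℕ) :
    ∑ p ∈ antidiagonal n, aC τ p.1 * bC τ p.2 = (n : ℝ) * bC τ n := by
  have h1 : ∑ p ∈ antidiagonal n, aC τ p.1 * bC τ p.2 =
      ∑ p ∈ antidiagonal n, ∑ i ∈ range (n + 1), ∑ j ∈ range n, TT τ p.1 (j + 1) * UU τ p.2 i := by
    refine sum_congr rfl fun p hp => ?_
    have hp' := mem_antidiagonal.mp hp
    rw [aC_eq τ p.1 n (by omega), bC_eq τ p.2 n (by omega), sum_mul_sum, sum_comm]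
  rw [h1, sum_comm]
  have h2 : ∀ i ∈ range (n + 1), (∑ p ∈ antidiagonal n, ∑ j ∈ range n, TT τ p.1 (j + 1) * UU τ p.2 i)
      = ∑ j ∈ range n, TT τ n (i + (j + 1)) := by
    intro i _
    rw [sum_comm]
    refine sum_congr rfl fun j _ => conv_UU_TT τ n i (j + 1)
  rw [sum_congr rfl h2, nbC_eq]
  have h3 : ∀ i ∈ range (n + 1), ∑ j ∈ range n, TT τ n (i + (j + 1)) =
      ∑ j ∈ range (n - i), TT τ n (i + (j + 1)) := by
    intro i _
    symm
    apply sum_subset (range_subset_range.mpr (by omega))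
    intro x _ hx
    apply TT_of_lt
    simp only [mem_range] at hx
    omega
  rw [sum_congr rfl h3, sum_range_succ, Nat.sub_self, range_zero, sum_empty, add_zero]
  rw [← sum_range_diag_flip n (fun i j => TT τ n (i + (j + 1)))]
  refine sum_congr rfl fun l _ => ?_
  have : ∀ k ∈ range (l + 1), TT τ n (k + (l - k + 1)) = TT τ n (l + 1) := by
    intro k hk
    have := mem_range.mp hk
    congr 1
    omega
  rw [sum_congr rfl this, sum_const, card_range, nsmul_eq_mul]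

end Pool.Agent.Lib.MP_31dc4f_pr
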