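import Pool.Agent.Lib.MP_31dc4f_pr.Limit

/-!
Existence of `μ_τ` and convergence in probability.
-/

open Finset Matrix MeasureTheory ProbabilityTheory Filter Topology

open scoped Matrix.Norms.L2Operator

namespace Pool.Agent.Lib.MP_31dc4f_pr

/-! ### Convergence of integrals of continuous functions -/

lemma integrable_of_Icc (μ : Measure ℝ) [IsProbabilityMeasure μ] (hμ : μ (Set.Icc 0 1)ᶜ = 0)
    (f : ℝ → ℝ) (hf : ContinuousOn f (Set.Icc 0 1)) : Integrable f μ := by
  have h1 : μ.restrict (Set.Icc 0 1) = μ := by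
    apply Measure.restrict_eq_self_of_ae_mem
    exact hμ
  have h2 : IntegrableOn f (Set.Icc 0 1) μ := hf.integrableOn_compact isCompact_Icc
  rwa [IntegrableOn, h1] at h2

lemma abs_integral_sub_le (μ : Measure ℝ) [IsProbabilityMeasure μ] (hμ : μ (Set.Icc 0 1)ᶜ = 0)
    (f g : ℝ → ℝ) (hf : ContinuousOn f (Set.Icc 0 1)) (hg : ContinuousOn g (Set.Icc 0 1)) (δ : ℝ)
    (h : ∀ x ∈ Set.Icc (0 : ℝ) 1, |f x - g x| ≤ δ) : |∫ x, f x ∂μ - ∫ x, g x ∂μ| ≤ δ := by
  rw [← integral_sub (integrable_of_Icc μ hμ f hf) (integrable_of_Icc μ hμ g hg)]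
  have h1 := norm_integral_le_of_norm_le_const (μ := μ) (f := fun x => f x - g x) (C := δ)
    (by
      have : ∀ᵐ x ∂μ, x ∈ Set.Icc (0 : ℝ) 1 := hμ
      filter_upwards [this] with x hx
      exact h x hx)
  simpa using h1

instance isProb_empM {N : ℕ} [NeZero N] (B : Matrix (Fin N) (Fin N) ℂ) :
    IsProbabilityMeasure (empM B) := by
  constructor
  unfold empM
  simp only [Measure.smul_apply, Measure.finsetSum_apply, measure_univ, sum_const, card_univ,
    Fintype.card_fin, nsmul_eq_mul, mul_one, smul_eq_mul]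
  apply ENNReal.inv_mul_cancel
  · exact_mod_cast (NeZero.ne N)
  · exact ENNReal.natCast_ne_top N

lemma empM_Icc {N : ℕ} (B : Matrix (Fin N) (Fin N) ℂ) (hB : ‖B‖ ≤ 1) :
    empM B (Set.Icc 0 1)ᶜ = 0 := by
  unfold empM
  rw [Measure.smul_apply, Measure.finsetSum_apply]
  have : ∑ k : Fin N, Measure.dirac ((isHermitian_conjTranspose_mul_self B).eigenvalues k)
      (Set.Icc (0 : ℝ) 1)ᶜ = 0 := by
    apply sum_eq_zero
    intro k _
    rw [Measure.dirac_apply' _ measurableSet_Icc.compl]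
    simp only [Set.indicator_apply_eq_zero, Set.mem_compl_iff]
    intro h
    exact absurd (eigenvalues_mem_Icc B hB k) h
  rw [this, smul_zero]

/-- deterministic comparison -/
lemma abs_empM_sub_le {N : ℕ} (hN : 0 < N) (B : Matrix (Fin N) (Fin N) ℂ) (hB : ‖B‖ ≤ 1) (μ : Measure ℝ)
    [IsProbabilityMeasure μ] (hμ : μ (Set.Icc 0 1)ᶜ = 0) (τ : ℝ)
    (hmom : ∀ p, ∫ x, x ^ p ∂μ = mom τ p) (f : ℝ → ℝ) (hf : ContinuousOn f (Set.Icc 0 1))
    (q : Polynomial ℝ) (δ : ℝ) (hq : ∀ x ∈ Set.Icc (0 : ℝ) 1, |q.eval x - f x| < δ) :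
    |∫ x, f x ∂(empM B) - ∫ x, f x ∂μ| ≤
      2 * δ + ∑ i ∈ range (q.natDegree + 1), |q.coeff i| * |xm B i - mom τ i| := by
  have : NeZero N := ⟨hN.ne'⟩
  have hqc : ContinuousOn (fun x => q.eval x) (Set.Icc (0 : ℝ) 1) := q.continuous.continuousOn
  have h1 : |∫ x, f x ∂(empM B) - ∫ x, q.eval x ∂(empM B)| ≤ δ :=
    abs_integral_sub_le _ (empM_Icc B hB) f _ hf hqc δ fun x hx => by
      rw [abs_sub_comm]; exact (hq x hx).le
  have h2 : |∫ x, q.eval x ∂μ - ∫ x, f x ∂μ| ≤ δ :=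
    abs_integral_sub_le μ hμ _ f hqc hf δ fun x hx => (hq x hx).le
  have h3 : ∫ x, q.eval x ∂μ = ∑ i ∈ range (q.natDegree + 1), q.coeff i * mom τ i := by
    simp only [Polynomial.eval_eq_sum_range]
    rw [integral_finsetSum]
    · refine sum_congr rfl fun i _ => ?_
      rw [integral_const_mul, hmom]
    · intro i _
      exact (integrable_of_Icc μ hμ (fun x => x ^ i) (continuous_pow i).continuousOn).const_mul _
  have h4 : |∫ x, q.eval x ∂(empM B) - ∫ x, q.eval x ∂μ| ≤
      ∑ i ∈ range (q.natDegree + 1), |q.coeff i| * |xm B i - mom τ i| := by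
    rw [h3, integral_empM_poly, ← sum_sub_distrib]
    refine (abs_sum_le_sum_abs _ _).trans (sum_le_sum fun i _ => ?_)
    rw [← mul_sub, abs_mul]
  calc |∫ x, f x ∂(empM B) - ∫ x, f x ∂μ| =
      |(∫ x, f x ∂(empM B) - ∫ x, q.eval x ∂(empM B)) +
        (∫ x, q.eval x ∂(empM B) - ∫ x, q.eval x ∂μ) + (∫ x, q.eval x ∂μ - ∫ x, f x ∂μ)| := by
        ring_nf
    _ ≤ |(∫ x, f x ∂(empM B) - ∫ x, q.eval x ∂(empM B))| +
        |(∫ x, q.eval x ∂(empM B) - ∫ x, q.eval x ∂μ)| +
        |(∫ x, q.eval x ∂μ - ∫ x, f x ∂μ)| := by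
        refine (abs_add_le _ _).trans ?_
        gcongr
        exact abs_add_le _ _
    _ ≤ _ := by linarith

/-- Markov bound at a fixed dimension -/
theorem prob_le {N : ℕ} [MeasurableSpace (Matrix.unitaryGroup (Fin N) ℂ)]
    [BorelSpace (Matrix.unitaryGroup (Fin N) ℂ)]
    {Ω : Type*} [MeasurableSpace Ω] (P : Measure Ω) [IsProbabilityMeasure P]
    (S : ℕ → Ω → Matrix.unitaryGroup (Fin N) ℂ) (hm : ∀ i, Measurable (S i))
    (hind : iIndepFun S P) (hinv : ∀ i, (P.map (S i)).IsMulLeftInvariant)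
    (Q : Matrix (Fin N) (Fin N) ℂ) (hQ : Q.IsHermitian) (hQ2 : Q * Q = Q) (hN : 0 < N)
    (hr : Q.rank = N - 1) (τ : ℝ) (hτ : 0 ≤ τ) (μ : Measure ℝ)
    [IsProbabilityMeasure μ] (hμ : μ (Set.Icc 0 1)ᶜ = 0)
    (hmom : ∀ p, ∫ x, x ^ p ∂μ = mom τ p) (f : ℝ → ℝ) (hf : ContinuousOn f (Set.Icc 0 1))
    (ε : ℝ) (hε : 0 < ε)
    (q : Polynomial ℝ) (hq : ∀ x ∈ Set.Icc (0 : ℝ) 1, |q.eval x - f x| < ε / 4) (l : ℕ) :
    P {ω | ε < |∫ x, f x ∂(empM (prodB Q (fun i => S i ω) l)) - ∫ x, f x ∂μ|} ≤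
      ENNReal.ofReal ((2 / ε) * ∑ i ∈ range (q.natDegree + 1), |q.coeff i| * errB τ N i l) := by
  let g : Ω → ℝ := fun ω => ∑ i ∈ range (q.natDegree + 1), |q.coeff i| *
    |xm (prodB Q (fun i => S i ω) l) i - mom τ i|
  have hg0 : ∀ ω, 0 ≤ g ω := fun ω => sum_nonneg fun i _ => by positivity
  have hgi : Integrable g P := integrable_finsetSum _ fun i _ =>
    (integrable_dev_term P S hm Q hQ hQ2 hN l i _).const_mul _
  have h1 : {ω | ε < |∫ x, f x ∂(empM (prodB Q (fun i => S i ω) l)) - ∫ x, f x ∂μ|} ⊆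
      {ω | ε / 2 ≤ g ω} := by
    intro ω hω
    simp only [Set.mem_ofPred_eq] at hω ⊢
    have := abs_empM_sub_le hN (prodB Q (fun i => S i ω) l) (norm_prodB_le Q hQ hQ2 hN _ l) μ hμ τ
      hmom f hf q (ε / 4) hq
    simp only [g]
    linarith
  have h2 := mul_meas_ge_le_integral_of_nonneg (μ := P) (f := g)
    (Filter.Eventually.of_forall hg0) hgi (ε / 2)
  have h3 : ∫ ω, g ω ∂P ≤ ∑ i ∈ range (q.natDegree + 1), |q.coeff i| * errB τ N i l := by
    simp only [g]
    rw [integral_finsetSum _ fun i _ => (integrable_dev_term P S hm Q hQ hQ2 hN l i _).const_mul _]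
    refine sum_le_sum fun i _ => ?_
    rw [integral_const_mul]
    gcongr
    exact integral_xm_sub_mom_le P S hm hind hinv Q hQ hQ2 hN hr i l τ hτ
  calc P {ω | ε < |∫ x, f x ∂(empM (prodB Q (fun i => S i ω) l)) - ∫ x, f x ∂μ|} ≤
      P {ω | ε / 2 ≤ g ω} := measure_mono h1
    _ = ENNReal.ofReal (P.real {ω | ε / 2 ≤ g ω}) := by
        rw [Measure.real, ENNReal.ofReal_toReal (measure_ne_top _ _)]
    _ ≤ _ := by
        apply ENNReal.ofReal_le_ofReal
        have : P.real {ω | ε / 2 ≤ g ω} = (2 / ε) * (ε / 2 * P.real {ω | ε / 2 ≤ g ω}) := by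
          field_simp
        rw [this]
        gcongr
        exact h2.trans h3

/-! ### Existence of the limit measure -/

/-- a left-invariant probability measure on the unitary group -/
lemma exists_model (N : ℕ) : ∃ (m : MeasurableSpace (Matrix.unitaryGroup (Fin N) ℂ))
    (_ : @BorelSpace (Matrix.unitaryGroup (Fin N) ℂ) _ m)
    (P : @Measure (ℕ → Matrix.unitaryGroup (Fin N) ℂ) (@MeasurableSpace.pi _ _ fun _ => m)),
    @IsProbabilityMeasure _ (@MeasurableSpace.pi _ _ fun _ => m) P ∧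
    @iIndepFun (ℕ → Matrix.unitaryGroup (Fin N) ℂ) ℕ (@MeasurableSpace.pi _ _ fun _ => m)
      (fun _ => Matrix.unitaryGroup (Fin N) ℂ) (fun _ => m) (fun i ω => ω i) P ∧
    ∀ i : ℕ, (@Measure.map _ _ (@MeasurableSpace.pi _ _ fun _ => m) m (fun ω => ω i) P).IsMulLeftInvariant := by
  let m : MeasurableSpace (Matrix.unitaryGroup (Fin N) ℂ) := borel _
  have hb : BorelSpace (Matrix.unitaryGroup (Fin N) ℂ) := ⟨rfl⟩
  let K : TopologicalSpace.PositiveCompacts (Matrix.unitaryGroup (Fin N) ℂ) := ⊤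
  let ν := Measure.haarMeasure K
  have hν : IsProbabilityMeasure ν := ⟨by
    have := Measure.haarMeasure_self (K₀ := K)
    exact this⟩
  refine ⟨m, hb, Measure.infinitePi (fun _ : ℕ => ν), inferInstance, ?_, ?_⟩
  · exact iIndepFun_infinitePi (P := fun _ : ℕ => ν)
      (X := fun _ (x : Matrix.unitaryGroup (Fin N) ℂ) => x) (fun _ => measurable_id)
  · intro i
    have : (Measure.infinitePi (fun _ : ℕ => ν)).map (fun ω => ω i) = ν :=
      Measure.infinitePi_map_eval (fun _ : ℕ => ν) i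
    rw [this]
    exact Measure.isMulLeftInvariant_haarMeasure K

/-- existence of a contraction with prescribed approximate moments -/
lemma exists_approx (τ : ℝ) (hτ : 0 ≤ τ) (K : ℕ) (δ : ℝ) (hδ : 0 < δ) :
    ∃ (N : ℕ) (_ : NeZero N) (B : Matrix (Fin N) (Fin N) ℂ), ‖B‖ ≤ 1 ∧
      ∀ k ≤ K, |xm B k - mom τ k| ≤ δ := by
  have hL : Tendsto (fun N : ℕ => ((⌊τ * N⌋₊ : ℕ) : ℝ) / N) atTop (𝓝 τ) :=
    tendsto_nat_floor_mul_div_atTop hτ |>.comp tendsto_natCast_atTop_atTop
  have h1 : Tendsto (fun N : ℕ => ∑ k ∈ range (K + 1), errB τ N k ⌊τ * N⌋₊) atTop (𝓝 0) := by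
    have := tendsto_finsetSum (range (K + 1)) fun k _ => tendsto_errB τ (fun N => ⌊τ * N⌋₊) hL k
    simpa using this
  have h2 := (h1.eventually_lt_const hδ).and (eventually_gt_atTop 0)
  obtain ⟨N, hN1, hN⟩ := h2.exists
  obtain ⟨m, hb, P, hP, hind, hinv⟩ := exists_model N
  have : NeZero N := ⟨by omega⟩
  let v : Fin N → ℂ := Pi.single 0 1
  have hv : star v ⬝ᵥ v = 1 := single_unit 0
  let Q : Matrix (Fin N) (Fin N) ℂ := 1 - vecMulVec v (star v)
  have hH : (vecMulVec v (star v))ᴴ = vecMulVec v (star v) := by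
    rw [conjTranspose_vecMulVec, star_star]
  have hQ : Q.IsHermitian := by
    unfold IsHermitian
    simp only [Q]
    rw [conjTranspose_sub, conjTranspose_one, hH]
  have hQ2 : Q * Q = Q := by
    have : vecMulVec v (star v) * vecMulVec v (star v) = vecMulVec v (star v) := by
      rw [vecMulVec_mul_vecMulVec, hv, one_smul]
    simp only [Q]
    rw [mul_sub, sub_mul, sub_mul, this]
    simp
  let L := ⌊τ * N⌋₊
  have hm : ∀ i : ℕ, Measurable (fun ω : ℕ → Matrix.unitaryGroup (Fin N) ℂ => ω i) :=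
    fun i => measurable_pi_apply i
  have hint : ∀ k, Integrable (fun ω : ℕ → Matrix.unitaryGroup (Fin N) ℂ =>
      |xm (prodB Q (fun i => ω i) L) k - mom τ k|) P := fun k =>
    integrable_dev_term P (fun i ω => ω i) hm Q hQ hQ2 hN L k _
  have hle : ∀ k, ∫ ω : ℕ → Matrix.unitaryGroup (Fin N) ℂ,
      |xm (prodB Q (fun i => ω i) L) k - mom τ k| ∂P ≤ errB τ N k L := by
    intro k
    have hl : (0 : ℝ) ≤ (L : ℝ) / N := by positivity
    have h1 := integral_xm_sub_le P (fun i ω => ω i) hm hind hinv Q hQ hQ2 hN v hv rfl k L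
    have h2 : |mom ((L : ℝ) / N) k - mom τ k| ≤ |(L : ℝ) / N - τ| := by
      rcases le_total τ ((L : ℝ) / N) with h | h
      · rw [abs_of_nonneg (by linarith : 0 ≤ (L : ℝ) / N - τ)]
        exact mom_lip k hτ h
      · rw [abs_sub_comm, abs_sub_comm ((L : ℝ) / N) τ,
          abs_of_nonneg (by linarith : 0 ≤ τ - (L : ℝ) / N)]
        exact mom_lip k hl h
    have h3 : ∫ ω : ℕ → Matrix.unitaryGroup (Fin N) ℂ, |xm (prodB Q (fun i => ω i) L) k - mom τ k| ∂P ≤
        ∫ ω : ℕ → Matrix.unitaryGroup (Fin N) ℂ,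
          (|xm (prodB Q (fun i => ω i) L) k - mom ((L : ℝ) / N) k| + |(L : ℝ) / N - τ|) ∂P := by
      apply integral_mono (hint k) ((integrable_dev_term P (fun i ω => ω i) hm Q hQ hQ2 hN L k _).add
        (integrable_const _))
      intro ω
      simp only [Pi.add_apply]
      calc |xm (prodB Q (fun i => ω i) L) k - mom τ k| =
          |(xm (prodB Q (fun i => ω i) L) k - mom ((L : ℝ) / N) k) +
            (mom ((L : ℝ) / N) k - mom τ k)| := by ring_nf
        _ ≤ _ := abs_add_le _ _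
        _ ≤ _ := by gcongr
    refine h3.trans ?_
    rw [integral_add (integrable_dev_term P (fun i ω => ω i) hm Q hQ hQ2 hN L k _)
      (integrable_const _), integral_const]
    simp only [probReal_univ, smul_eq_mul, one_mul]
    unfold errB
    linarith
  have hsum : ∫ ω : ℕ → Matrix.unitaryGroup (Fin N) ℂ, (∑ k ∈ range (K + 1),
      |xm (prodB Q (fun i => ω i) L) k - mom τ k|) ∂P < δ := by
    rw [integral_finsetSum _ fun k _ => hint k]
    exact (sum_le_sum fun k _ => hle k).trans_lt hN1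
  obtain ⟨ω, hω⟩ := exists_le_integral (integrable_finsetSum (range (K + 1)) fun k _ => hint k)
  refine ⟨N, this, prodB Q (fun i => ω i) L, norm_prodB_le Q hQ hQ2 hN _ L, ?_⟩
  intro k hk
  have h5 : |xm (prodB Q (fun i => ω i) L) k - mom τ k| ≤ ∑ k ∈ range (K + 1),
      |xm (prodB Q (fun i => ω i) L) k - mom τ k| :=
    single_le_sum (f := fun k => |xm (prodB Q (fun i => ω i) L) k - mom τ k|)
      (fun _ _ => abs_nonneg _) (mem_range.mpr (by omega))
  exact h5.trans (hω.trans hsum.le)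

/-- the empirical measure seen on the unit interval -/
noncomputable def empI {N : ℕ} (B : Matrix (Fin N) (Fin N) ℂ) (hB : ‖B‖ ≤ 1) :
    Measure unitInterval :=
  (N : ENNReal)⁻¹ • ∑ k : Fin N,
    Measure.dirac ⟨(isHermitian_conjTranspose_mul_self B).eigenvalues k, eigenvalues_mem_Icc B hB k⟩

instance isProb_empI {N : ℕ} [NeZero N] (B : Matrix (Fin N) (Fin N) ℂ) (hB : ‖B‖ ≤ 1) :
    IsProbabilityMeasure (empI B hB) := by
  constructor
  unfold empI
  simp only [Measure.smul_apply, Measure.finsetSum_apply, measure_univ, sum_const, card_univ,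
    Fintype.card_fin, nsmul_eq_mul, mul_one, smul_eq_mul]
  apply ENNReal.inv_mul_cancel
  · exact_mod_cast (NeZero.ne N)
  · exact ENNReal.natCast_ne_top N

lemma integral_empI_pow {N : ℕ} (B : Matrix (Fin N) (Fin N) ℂ) (hB : ‖B‖ ≤ 1) (p : ℕ) :
    ∫ x : unitInterval, (x : ℝ) ^ p ∂(empI B hB) = xm B p := by
  unfold empI
  rw [integral_smul_measure, integral_finsetSum_measure, xm_eq_sum]
  · simp only [integral_dirac, ENNReal.toReal_inv, ENNReal.toReal_natCast, smul_eq_mul]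
    ring
  · intro i _
    exact integrable_dirac enorm_lt_top

/-- the measure `μ_τ` exists. -/
theorem exists_mu (τ : ℝ) (hτ : 0 ≤ τ) : ∃ μ : Measure ℝ, IsProbabilityMeasure μ ∧
    μ (Set.Icc 0 1)ᶜ = 0 ∧ ∀ p, ∫ x, x ^ p ∂μ = mom τ p := by
  have h := fun n : ℕ => exists_approx τ hτ n (1 / ((n : ℝ) + 1)) (by positivity)
  choose N hN B hB hmom using h
  let ρ : ℕ → ProbabilityMeasure unitInterval := fun n => ⟨empI (B n) (hB n), isProb_empI _ _⟩
  let U : Ultrafilter ℕ := hyperfilter ℕ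
  have hU : (U : Filter ℕ) ≤ atTop := by
    rw [← Nat.cofinite_eq_atTop]
    exact hyperfilter_le_cofinite
  obtain ⟨μ, -, hμ⟩ := isCompact_univ.ultrafilter_le_nhds (U.map ρ) (by simp)
  have hlim : Tendsto ρ (U : Filter ℕ) (𝓝 μ) := hμ
  rw [ProbabilityMeasure.tendsto_iff_forall_integral_tendsto] at hlim
  have hmu : ∀ p : ℕ, ∫ x : unitInterval, (x : ℝ) ^ p ∂(μ : Measure unitInterval) = mom τ p := by
    intro p
    let f : BoundedContinuousFunction unitInterval ℝ :=
      BoundedContinuousFunction.mkOfCompact ⟨fun x => (x : ℝ) ^ p, by fun_prop⟩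
    have h1 := hlim f
    have h2 : Tendsto (fun n => ∫ x : unitInterval, f x ∂(ρ n : Measure unitInterval)) U
        (𝓝 (mom τ p)) := by
      have h3 : (fun n => ∫ x : unitInterval, f x ∂(ρ n : Measure unitInterval)) =
          fun n => xm (B n) p := by
        funext n
        exact integral_empI_pow (B n) (hB n) p
      rw [h3]
      refine Tendsto.mono_left ?_ hU
      rw [tendsto_iff_dist_tendsto_zero]
      apply squeeze_zero' (Eventually.of_forall fun n => dist_nonneg)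
        (g := fun n : ℕ => 1 / ((n : ℝ) + 1)) _ tendsto_one_div_add_atTop_nhds_zero_nat
      filter_upwards [eventually_ge_atTop p] with n hn
      rw [Real.dist_eq]
      exact hmom n p hn
    exact tendsto_nhds_unique h1 h2
  refine ⟨(μ : Measure unitInterval).map (Subtype.val), ?_, ?_, ?_⟩
  · exact Measure.isProbabilityMeasure_map measurable_subtype_coe.aemeasurable
  · rw [Measure.map_apply measurable_subtype_coe measurableSet_Icc.compl]
    have : (Subtype.val ⁻¹' (Set.Icc (0 : ℝ) 1)ᶜ : Set unitInterval) = ∅ := by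
      ext x
      simp only [Set.mem_preimage, Set.mem_compl_iff, Set.mem_empty_iff_false, iff_false, not_not]
      exact x.2
    rw [this, measure_empty]
  · intro p
    rw [integral_map measurable_subtype_coe.aemeasurable
      (continuous_pow p).aestronglyMeasurable]
    exact hmu p

end Pool.Agent.Lib.MP_31dc4f_pr
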