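import Pool.Agent.Lib.MP_31dc4f_pr.Model

/-!
Gronwall estimate: the normalised moments follow the hierarchy.
-/

open Finset Matrix MeasureTheory ProbabilityTheory

namespace Pool.Agent.Lib.MP_31dc4f_pr

lemma mom_lip (p : ℕ) {s t : ℝ} (hs : 0 ≤ s) (hst : s ≤ t) : |mom t p - mom s p| ≤ t - s := by
  rcases hst.eq_or_lt with rfl | hlt
  · simp
  obtain ⟨ξ, hξ, hslope⟩ := exists_hasDerivAt_eq_slope (fun τ => mom τ p) (fun τ => -qq τ p) hlt
    (fun x _ => (hasDerivAt_mom p x).continuousAt.continuousWithinAt)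
    (fun x _ => hasDerivAt_mom p x)
  have h1 : mom t p - mom s p = -qq ξ p * (t - s) := by
    have : t - s ≠ 0 := by linarith
    field_simp at hslope
    linarith
  rw [h1, abs_mul, abs_neg, abs_of_pos (by linarith : 0 < t - s)]
  have := qq_mem (τ := ξ) (by linarith [hξ.1]) p
  nlinarith

lemma mom_taylor (p : ℕ) {t h : ℝ} (ht : 0 ≤ t) (hh : 0 ≤ h) :
    |mom (t + h) p - mom t p + h * qq t p| ≤ LG p * h ^ 2 := by
  rcases hh.eq_or_lt with rfl | hlt
  · simp
  obtain ⟨ξ, hξ, hslope⟩ := exists_hasDerivAt_eq_slope (fun τ => mom τ p) (fun τ => -qq τ p)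
    (by linarith : t < t + h)
    (fun x _ => (hasDerivAt_mom p x).continuousAt.continuousWithinAt)
    (fun x _ => hasDerivAt_mom p x)
  have h1 : mom (t + h) p - mom t p = -qq ξ p * h := by
    have h2 : t + h - t = h := by ring
    rw [h2] at hslope
    have : h ≠ 0 := hlt.ne'
    field_simp at hslope
    linarith
  have h3 : mom (t + h) p - mom t p + h * qq t p = -((qq ξ p - qq t p) * h) := by
    rw [h1]; ring
  rw [h3, abs_neg, abs_mul, abs_of_pos hlt]
  have hξ0 : 0 ≤ ξ := by linarith [hξ.1]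
  have h4 : |qq ξ p - qq t p| ≤ LG p * h := by
    rw [← GS_mom, ← GS_mom]
    apply GS_lip _ _ (fun k => mom_mem hξ0 k) (fun k => mom_mem ht k)
    intro k _
    have := mom_lip k ht hξ.1.le
    linarith [hξ.2]
  calc |qq ξ p - qq t p| * h ≤ LG p * h * h := by gcongr
    _ = LG p * h ^ 2 := by ring

/-- total Lipschitz constant. -/
noncomputable def Lam (K : ℕ) : ℝ := ∑ p ∈ range (K + 1), LG p

lemma Lam_nonneg (K : ℕ) : 0 ≤ Lam K := sum_nonneg fun p _ => LG_nonneg p

variable {N : ℕ}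

/-- The deviation from the solution of the hierarchy. -/
noncomputable def dev (Q : Matrix (Fin N) (Fin N) ℂ) (S : ℕ → Matrix.unitaryGroup (Fin N) ℂ)
    (K l : ℕ) : ℝ := ∑ k ∈ range (K + 1), |xm (prodB Q S l) k - mom ((l : ℝ) / N) k|

/-- The fluctuation term. -/
noncomputable def fluc (Q : Matrix (Fin N) (Fin N) ℂ) (v : Fin N → ℂ)
    (S : ℕ → Matrix.unitaryGroup (Fin N) ℂ) (K l : ℕ) : ℝ :=
  ∑ k ∈ range (K + 1), |rm (prodB Q S l) v (S l) k - xm (prodB Q S l) k|

lemma dev_nonneg (Q : Matrix (Fin N) (Fin N) ℂ) (S : ℕ → Matrix.unitaryGroup (Fin N) ℂ)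
    (K l : ℕ) : 0 ≤ dev Q S K l := sum_nonneg fun _ _ => abs_nonneg _

lemma fluc_nonneg (Q : Matrix (Fin N) (Fin N) ℂ) (v : Fin N → ℂ)
    (S : ℕ → Matrix.unitaryGroup (Fin N) ℂ) (K l : ℕ) : 0 ≤ fluc Q v S K l :=
  sum_nonneg fun _ _ => abs_nonneg _

lemma dev_zero (Q : Matrix (Fin N) (Fin N) ℂ) (S : ℕ → Matrix.unitaryGroup (Fin N) ℂ)
    (hN : 0 < N) (K : ℕ) : dev Q S K 0 = 0 := by
  unfold dev
  apply sum_eq_zero
  intro k _
  have hNR : (N : ℝ) ≠ 0 := by exact_mod_cast hN.ne'
  have h1 : xm (prodB Q S 0) k = 1 := by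
    unfold xm
    simp [prodB, trace_one, hNR]
  rw [h1, Nat.cast_zero, zero_div, mom_tau_zero, sub_self, abs_zero]

lemma dev_step (Q : Matrix (Fin N) (Fin N) ℂ) (hQ : Q.IsHermitian) (hQ2 : Q * Q = Q) (hN : 0 < N)
    (v : Fin N → ℂ) (hv : star v ⬝ᵥ v = 1) (hQv : Q = 1 - vecMulVec v (star v))
    (S : ℕ → Matrix.unitaryGroup (Fin N) ℂ) (K l : ℕ) :
    dev Q S K (l + 1) ≤ (1 + Lam K / N) * dev Q S K l + Lam K / N * (fluc Q v S K l + 1 / N) := by
  have hNR : (0 : ℝ) < N := by exact_mod_cast hN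
  set t : ℝ := (l : ℝ) / N with ht
  have ht0 : 0 ≤ t := by positivity
  have ht1 : ((l + 1 : ℕ) : ℝ) / N = t + 1 / N := by
    rw [ht]; push_cast; ring
  have key : ∀ p ∈ range (K + 1), |xm (prodB Q S (l + 1)) p - mom (((l + 1 : ℕ) : ℝ) / N) p| ≤
      |xm (prodB Q S l) p - mom t p| +
        LG p * (1 / N) * (fluc Q v S K l + dev Q S K l + 1 / N) := by
    intro p hp
    have hp' : p < K + 1 := mem_range.mp hp
    rw [xm_step Q hQ hQ2 v hQv S l p, ht1]
    have h1 : |GS (rm (prodB Q S l) v (S l)) p - GS (mom t) p| ≤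
        LG p * (fluc Q v S K l + dev Q S K l) := by
      apply GS_lip _ _ (fun k => rm_abs_le _ (norm_prodB_le Q hQ hQ2 hN S l) hN v hv _ k)
        (fun k => mom_mem ht0 k)
      intro k hk
      have hk' : k ∈ range (K + 1) := by
        rw [mem_range]; omega
      have e1 : |rm (prodB Q S l) v (S l) k - xm (prodB Q S l) k| ≤ fluc Q v S K l :=
        single_le_sum (f := fun k => |rm (prodB Q S l) v (S l) k - xm (prodB Q S l) k|)
          (fun _ _ => abs_nonneg _) hk'
      have e2 : |xm (prodB Q S l) k - mom t k| ≤ dev Q S K l :=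
        single_le_sum (f := fun k => |xm (prodB Q S l) k - mom t k|)
          (fun _ _ => abs_nonneg _) hk'
      calc |rm (prodB Q S l) v (S l) k - mom t k| =
          |(rm (prodB Q S l) v (S l) k - xm (prodB Q S l) k) +
            (xm (prodB Q S l) k - mom t k)| := by ring_nf
        _ ≤ _ := abs_add_le _ _
        _ ≤ _ := add_le_add e1 e2
    have h2 := mom_taylor p ht0 (by positivity : (0 : ℝ) ≤ 1 / N)
    have h3 : xm (prodB Q S l) p - GS (rm (prodB Q S l) v (S l)) p / N - mom (t + 1 / N) p =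
        (xm (prodB Q S l) p - mom t p) -
        (1 / N) * (GS (rm (prodB Q S l) v (S l)) p - GS (mom t) p) -
        (mom (t + 1 / N) p - mom t p + (1 / N) * qq t p) := by
      rw [GS_mom]; ring
    rw [h3]
    calc |(xm (prodB Q S l) p - mom t p) -
        (1 / N) * (GS (rm (prodB Q S l) v (S l)) p - GS (mom t) p) -
        (mom (t + 1 / N) p - mom t p + (1 / N) * qq t p)| ≤
        |(xm (prodB Q S l) p - mom t p) -
        (1 / N) * (GS (rm (prodB Q S l) v (S l)) p - GS (mom t) p)| +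
        |mom (t + 1 / N) p - mom t p + (1 / N) * qq t p| := abs_sub _ _
      _ ≤ (|xm (prodB Q S l) p - mom t p| +
        |(1 / N) * (GS (rm (prodB Q S l) v (S l)) p - GS (mom t) p)|) +
        LG p * (1 / N) ^ 2 := add_le_add (abs_sub _ _) h2
      _ ≤ (|xm (prodB Q S l) p - mom t p| + (1 / N) * (LG p * (fluc Q v S K l + dev Q S K l))) +
        LG p * (1 / N) ^ 2 := by
          rw [abs_mul, abs_of_nonneg (by positivity : (0 : ℝ) ≤ 1 / N)]
          gcongr
      _ = _ := by ring
  calc dev Q S K (l + 1) ≤ ∑ p ∈ range (K + 1), (|xm (prodB Q S l) p - mom t p| +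
        LG p * (1 / N) * (fluc Q v S K l + dev Q S K l + 1 / N)) := sum_le_sum key
    _ = dev Q S K l + Lam K * (1 / N) * (fluc Q v S K l + dev Q S K l + 1 / N) := by
        rw [sum_add_distrib, ← sum_mul, ← sum_mul]
        rfl
    _ = _ := by ring

section

variable [MeasurableSpace (Matrix.unitaryGroup (Fin N) ℂ)]
  [BorelSpace (Matrix.unitaryGroup (Fin N) ℂ)]
  {Ω : Type*} [MeasurableSpace Ω] (P : Measure Ω) [IsProbabilityMeasure P]
  (S : ℕ → Ω → Matrix.unitaryGroup (Fin N) ℂ) (hm : ∀ i, Measurable (S i))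
  (hind : iIndepFun S P) (hinv : ∀ i, (P.map (S i)).IsMulLeftInvariant)
  (Q : Matrix (Fin N) (Fin N) ℂ) (hQ : Q.IsHermitian) (hQ2 : Q * Q = Q) (hN : 0 < N)
  (v : Fin N → ℂ) (hv : star v ⬝ᵥ v = 1) (hQv : Q = 1 - vecMulVec v (star v))

include hm hQ hQ2 hN in
lemma integrable_dev_term (l k : ℕ) (c : ℝ) :
    Integrable (fun ω => |xm (prodB Q (fun i => S i ω) l) k - c|) P := by
  apply Integrable.of_bound (C := 1 + |c|)
    ((measurable_xm S hm Q l k).sub_const c).norm.aestronglyMeasurable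
  refine Filter.Eventually.of_forall fun ω => ?_
  rw [Real.norm_eq_abs, Real.norm_eq_abs, abs_abs]
  refine (abs_sub _ _).trans ?_
  have := xm_abs_le _ (norm_prodB_le Q hQ hQ2 hN (fun i => S i ω) l) hN k
  linarith

include hm hQ hQ2 hN hv in
lemma integrable_sq_term (l k : ℕ) :
    Integrable (fun ω => (rm (prodB Q (fun i => S i ω) l) v (S l ω) k -
      xm (prodB Q (fun i => S i ω) l) k) ^ 2) P := by
  apply Integrable.of_bound (C := 4)
    (((measurable_rm S hm Q v l k).sub (measurable_xm S hm Q l k)).pow_const 2).aestronglyMeasurable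
  refine Filter.Eventually.of_forall fun ω => ?_
  have h1 := xm_abs_le _ (norm_prodB_le Q hQ hQ2 hN (fun i => S i ω) l) hN k
  have h2 := rm_abs_le _ (norm_prodB_le Q hQ hQ2 hN (fun i => S i ω) l) hN v hv (S l ω) k
  rw [Real.norm_eq_abs, abs_of_nonneg (sq_nonneg _), Pi.sub_apply]
  have := abs_le.mp h1
  have := abs_le.mp h2
  nlinarith

include hm hQ hQ2 hN hv in
lemma integrable_abs_term (l k : ℕ) :
    Integrable (fun ω => |rm (prodB Q (fun i => S i ω) l) v (S l ω) k -
      xm (prodB Q (fun i => S i ω) l) k|) P := by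
  apply Integrable.of_bound (C := 2)
    ((measurable_rm S hm Q v l k).sub (measurable_xm S hm Q l k)).norm.aestronglyMeasurable
  refine Filter.Eventually.of_forall fun ω => ?_
  have h1 := xm_abs_le _ (norm_prodB_le Q hQ hQ2 hN (fun i => S i ω) l) hN k
  have h2 := rm_abs_le _ (norm_prodB_le Q hQ hQ2 hN (fun i => S i ω) l) hN v hv (S l ω) k
  rw [Real.norm_eq_abs, Real.norm_eq_abs, abs_abs, Pi.sub_apply]
  refine (abs_sub _ _).trans ?_
  linarith

include hm hind hinv hQ hQ2 hN hv in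
lemma integral_abs_le (l k : ℕ) :
    ∫ ω, |rm (prodB Q (fun i => S i ω) l) v (S l ω) k -
      xm (prodB Q (fun i => S i ω) l) k| ∂P ≤ 1 / Real.sqrt N := by
  have hNR : (0 : ℝ) < N := by exact_mod_cast hN
  have hsq : 0 < Real.sqrt N := Real.sqrt_pos.mpr hNR
  have hss : Real.sqrt N * Real.sqrt N = N := Real.mul_self_sqrt hNR.le
  have h1 := integral_sq_le P S hm hind hinv Q hQ hQ2 hN v hv l k
  have h2 : ∫ ω, |rm (prodB Q (fun i => S i ω) l) v (S l ω) k -
      xm (prodB Q (fun i => S i ω) l) k| ∂P ≤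
      ∫ ω, ((Real.sqrt N / 2) * (rm (prodB Q (fun i => S i ω) l) v (S l ω) k -
      xm (prodB Q (fun i => S i ω) l) k) ^ 2 + 1 / (2 * Real.sqrt N)) ∂P := by
    apply integral_mono (integrable_abs_term P S hm Q hQ hQ2 hN v hv l k)
      (((integrable_sq_term P S hm Q hQ hQ2 hN v hv l k).const_mul _).add (integrable_const _))
    intro ω
    simp only [Pi.add_apply]
    set y := rm (prodB Q (fun i => S i ω) l) v (S l ω) k - xm (prodB Q (fun i => S i ω) l) k
    have h3 : 0 ≤ (Real.sqrt N * |y| - 1) ^ 2 := sq_nonneg _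
    have h4 : |y| ^ 2 = y ^ 2 := sq_abs y
    have h5 : Real.sqrt N / 2 * y ^ 2 + 1 / (2 * Real.sqrt N) - |y| =
      (Real.sqrt N * |y| - 1) ^ 2 / (2 * Real.sqrt N) := by
      rw [← h4]
      field_simp
      ring
    have h6 : 0 ≤ (Real.sqrt N * |y| - 1) ^ 2 / (2 * Real.sqrt N) := by positivity
    linarith
  refine h2.trans ?_
  rw [integral_add ((integrable_sq_term P S hm Q hQ hQ2 hN v hv l k).const_mul _)
    (integrable_const _), integral_const_mul, integral_const]
  simp only [probReal_univ, smul_eq_mul, one_mul]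
  have h7 : (Real.sqrt N / 2) * (∫ ω, (rm (prodB Q (fun i => S i ω) l) v (S l ω) k -
      xm (prodB Q (fun i => S i ω) l) k) ^ 2 ∂P) ≤ (Real.sqrt N / 2) * (1 / N) := by
    apply mul_le_mul_of_nonneg_left _ (by positivity)
    refine h1.trans ?_
    apply one_div_le_one_div_of_le hNR
    linarith
  have h8 : (Real.sqrt N / 2) * (1 / N) = 1 / (2 * Real.sqrt N) := by
    rw [div_mul_div_comm, mul_one, div_eq_div_iff (by positivity) (by positivity)]
    nlinarith [hss]
  have h9 : 1 / (2 * Real.sqrt N) + 1 / (2 * Real.sqrt N) = 1 / Real.sqrt N := by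
    field_simp
    norm_num
  linarith

include hm hind hinv hQ hQ2 hN hv hQv in
/-- The Gronwall bound in expectation. -/
theorem integral_dev_le (K l : ℕ) :
    ∫ ω, dev Q (fun i => S i ω) K l ∂P ≤
      ((1 + Lam K / N) ^ l - 1) * ((K + 1) / Real.sqrt N + 1 / N) := by
  have hNR : (0 : ℝ) < N := by exact_mod_cast hN
  have hLN : 0 ≤ Lam K / N := div_nonneg (Lam_nonneg K) hNR.le
  have hintdev : ∀ l, Integrable (fun ω => dev Q (fun i => S i ω) K l) P := fun l =>
    integrable_finsetSum _ fun k _ => integrable_dev_term P S hm Q hQ hQ2 hN l k _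
  have hintfluc : ∀ l, Integrable (fun ω => fluc Q v (fun i => S i ω) K l) P := fun l =>
    integrable_finsetSum _ fun k _ => integrable_abs_term P S hm Q hQ hQ2 hN v hv l k
  have hfluc : ∀ l, ∫ ω, fluc Q v (fun i => S i ω) K l ∂P ≤ (K + 1) / Real.sqrt N := by
    intro l
    unfold fluc
    rw [integral_finsetSum _ fun k _ => integrable_abs_term P S hm Q hQ hQ2 hN v hv l k]
    have e : ∑ _k ∈ range (K + 1), (1 / Real.sqrt N) = (K + 1) / Real.sqrt N := by
      rw [sum_const, card_range, nsmul_eq_mul]; push_cast; ring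
    rw [← e]
    exact sum_le_sum fun k _ => integral_abs_le P S hm hind hinv Q hQ hQ2 hN v hv l k
  induction l with
  | zero =>
    simp only [dev_zero Q _ hN K]
    simp
  | succ l ih =>
    have h1 : ∫ ω, dev Q (fun i => S i ω) K (l + 1) ∂P ≤
        ∫ ω, ((1 + Lam K / N) * dev Q (fun i => S i ω) K l +
          Lam K / N * (fluc Q v (fun i => S i ω) K l + 1 / N)) ∂P := by
      apply integral_mono (hintdev (l + 1))
        (((hintdev l).const_mul _).add (((hintfluc l).add (integrable_const _)).const_mul _))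
      intro ω
      exact dev_step Q hQ hQ2 hN v hv hQv (fun i => S i ω) K l
    refine h1.trans ?_
    have hi2 : Integrable (fun ω => fluc Q v (fun i => S i ω) K l + 1 / (N : ℝ)) P :=
      (hintfluc l).add (integrable_const _)
    rw [integral_add ((hintdev l).const_mul _) (hi2.const_mul _),
      integral_const_mul, integral_const_mul, integral_add (hintfluc l) (integrable_const _),
      integral_const]
    simp only [probReal_univ, smul_eq_mul, one_mul]
    have h2 := mul_le_mul_of_nonneg_left ih (by linarith : 0 ≤ 1 + Lam K / N)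
    have h3 : Lam K / N * (∫ ω, fluc Q v (fun i => S i ω) K l ∂P + 1 / N) ≤
        Lam K / N * ((K + 1) / Real.sqrt N + 1 / N) := by
      gcongr
      exact hfluc l
    calc (1 + Lam K / N) * ∫ ω, dev Q (fun i => S i ω) K l ∂P +
        Lam K / N * (∫ ω, fluc Q v (fun i => S i ω) K l ∂P + 1 / N) ≤
        (1 + Lam K / N) * (((1 + Lam K / N) ^ l - 1) * ((K + 1) / Real.sqrt N + 1 / N)) +
        Lam K / N * ((K + 1) / Real.sqrt N + 1 / N) := add_le_add h2 h3
      _ = ((1 + Lam K / N) ^ (l + 1) - 1) * ((K + 1) / Real.sqrt N + 1 / N) := by ring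

include hm hind hinv hQ hQ2 hN hv hQv in
/-- The moments are close to `mom` in `L¹`. -/
theorem integral_xm_sub_le (k l : ℕ) :
    ∫ ω, |xm (prodB Q (fun i => S i ω) l) k - mom ((l : ℝ) / N) k| ∂P ≤
      Real.exp (Lam k * (l / N)) * ((k + 1) / Real.sqrt N + 1 / N) := by
  have hNR : (0 : ℝ) < N := by exact_mod_cast hN
  have hLN : 0 ≤ Lam k / N := div_nonneg (Lam_nonneg k) hNR.le
  have h1 := integral_dev_le P S hm hind hinv Q hQ hQ2 hN v hv hQv k l
  have h2 : ∫ ω, |xm (prodB Q (fun i => S i ω) l) k - mom ((l : ℝ) / N) k| ∂P ≤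
      ∫ ω, dev Q (fun i => S i ω) k l ∂P := by
    apply integral_mono (integrable_dev_term P S hm Q hQ hQ2 hN l k _)
      (integrable_finsetSum _ fun k _ => integrable_dev_term P S hm Q hQ hQ2 hN l k _)
    intro ω
    exact single_le_sum (f := fun j => |xm (prodB Q (fun i => S i ω) l) j - mom ((l : ℝ) / N) j|)
      (fun _ _ => abs_nonneg _) (by simp : k ∈ range (k + 1))
  refine h2.trans (h1.trans ?_)
  apply mul_le_mul_of_nonneg_right _ (by positivity)
  have h3 : (1 + Lam k / N) ^ l ≤ Real.exp (Lam k * (l / N)) := by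
    calc (1 + Lam k / N) ^ l ≤ (Real.exp (Lam k / N)) ^ l := by
          gcongr
          linarith [Real.add_one_le_exp (Lam k / N)]
      _ = Real.exp (Lam k * (l / N)) := by
          rw [← Real.exp_nat_mul]
          congr 1
          ring
  linarith

end

end Pool.Agent.Lib.MP_31dc4f_pr
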