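import Pool.Agent.Lib.MP_31dc4f_pr.Compact

/-!
Second moments of quadratic forms in a Haar unitary.
-/

open Finset Matrix MeasureTheory

namespace Pool.Agent.Lib.MP_31dc4f_pr

variable {N : ℕ}

/-- The conjugate `S A Sᴴ`. -/
def conjM (A : Matrix (Fin N) (Fin N) ℂ) (S : Matrix.unitaryGroup (Fin N) ℂ) :
    Matrix (Fin N) (Fin N) ℂ :=
  (S : Matrix (Fin N) (Fin N) ℂ) * A * star (S : Matrix (Fin N) (Fin N) ℂ)

/-- The quadratic form `vᴴ S A Sᴴ v`. -/
noncomputable def hf (A : Matrix (Fin N) (Fin N) ℂ) (v : Fin N → ℂ)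
    (S : Matrix.unitaryGroup (Fin N) ℂ) : ℝ :=
  (star v ⬝ᵥ (conjM A S *ᵥ v)).re

lemma continuous_conjM (A : Matrix (Fin N) (Fin N) ℂ) :
    Continuous (conjM A) := by
  unfold conjM
  have h : Continuous (fun S : Matrix.unitaryGroup (Fin N) ℂ => (S : Matrix (Fin N) (Fin N) ℂ)) :=
    continuous_subtype_val
  exact (h.mul continuous_const).mul h.star

lemma continuous_hf (A : Matrix (Fin N) (Fin N) ℂ) (v : Fin N → ℂ) : Continuous (hf A v) := by
  unfold hf
  refine Complex.continuous_re.comp ?_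
  exact continuous_const.dotProduct ((continuous_conjM A).matrix_mulVec continuous_const)

lemma conjM_mul (A : Matrix (Fin N) (Fin N) ℂ) (V S : Matrix.unitaryGroup (Fin N) ℂ) :
    conjM A (V * S) = (V : Matrix (Fin N) (Fin N) ℂ) * conjM A S *
      star (V : Matrix (Fin N) (Fin N) ℂ) := by
  unfold conjM
  have : ((V * S : Matrix.unitaryGroup (Fin N) ℂ) : Matrix (Fin N) (Fin N) ℂ) =
    (V : Matrix (Fin N) (Fin N) ℂ) * (S : Matrix (Fin N) (Fin N) ℂ) := rfl
  rw [this, star_mul]
  simp only [mul_assoc]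

lemma hf_mul (A : Matrix (Fin N) (Fin N) ℂ) (v : Fin N → ℂ) (V S : Matrix.unitaryGroup (Fin N) ℂ) :
    hf A v (V * S) = hf A (star (V : Matrix (Fin N) (Fin N) ℂ) *ᵥ v) S := by
  unfold hf
  rw [conjM_mul, star_mulVec]
  congr 1
  have e : star (V : Matrix (Fin N) (Fin N) ℂ) = (V : Matrix (Fin N) (Fin N) ℂ)ᴴ := rfl
  rw [e, conjTranspose_conjTranspose, ← dotProduct_mulVec, mulVec_mulVec, mulVec_mulVec, mul_assoc]

lemma conjM_isHermitian (A : Matrix (Fin N) (Fin N) ℂ) (hA : A.IsHermitian)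
    (S : Matrix.unitaryGroup (Fin N) ℂ) : (conjM A S).IsHermitian := by
  unfold conjM
  exact isHermitian_mul_mul_conjTranspose _ hA

lemma trace_conjM (A : Matrix (Fin N) (Fin N) ℂ) (S : Matrix.unitaryGroup (Fin N) ℂ) :
    trace (conjM A S) = trace A := by
  unfold conjM
  rw [trace_mul_cycle, Unitary.coe_star_mul_self, one_mul]

lemma conjM_mul_conjM (A B : Matrix (Fin N) (Fin N) ℂ) (S : Matrix.unitaryGroup (Fin N) ℂ) :
    conjM A S * conjM B S = conjM (A * B) S := by
  unfold conjM
  have h : star (S : Matrix (Fin N) (Fin N) ℂ) * (S : Matrix (Fin N) (Fin N) ℂ) = 1 :=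
    Unitary.coe_star_mul_self S
  calc (S : Matrix (Fin N) (Fin N) ℂ) * A * star (S : Matrix (Fin N) (Fin N) ℂ) *
      ((S : Matrix (Fin N) (Fin N) ℂ) * B * star (S : Matrix (Fin N) (Fin N) ℂ))
      = (S : Matrix (Fin N) (Fin N) ℂ) * A * (star (S : Matrix (Fin N) (Fin N) ℂ) *
        (S : Matrix (Fin N) (Fin N) ℂ)) * B * star (S : Matrix (Fin N) (Fin N) ℂ) := by
        simp only [mul_assoc]
    _ = _ := by rw [h]; simp only [mul_assoc, one_mul]

lemma hf_single (A : Matrix (Fin N) (Fin N) ℂ) (j : Fin N) (S : Matrix.unitaryGroup (Fin N) ℂ) :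
    hf A (Pi.single j 1) S = (conjM A S j j).re := by
  unfold hf
  rw [mulVec_single_one, ← Pi.single_star, star_one, single_one_dotProduct]
  rfl

/-- the unit vector `(e_j + ω e_k)/√2`. -/
noncomputable def wv (j k : Fin N) (ω : ℂ) : Fin N → ℂ :=
  ((Real.sqrt 2)⁻¹ : ℂ) • (Pi.single j 1 + ω • Pi.single k 1)

lemma wv_form (C : Matrix (Fin N) (Fin N) ℂ) (hC : C.IsHermitian) (j k : Fin N) (ω : ℂ)
    (hω : ω * star ω = 1) :
    (star (wv j k ω) ⬝ᵥ (C *ᵥ (wv j k ω))).re =
      (1 / 2) * ((C j j).re + (C k k).re + 2 * (ω * C j k).re) := by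
  unfold wv
  have hs : (((Real.sqrt 2 : ℝ) : ℂ)⁻¹) * (((Real.sqrt 2 : ℝ) : ℂ)⁻¹) = ((1 / 2 : ℝ) : ℂ) := by
    rw [← Complex.ofReal_inv, ← Complex.ofReal_mul, ← mul_inv, Real.mul_self_sqrt (by norm_num)]
    norm_num
  have e : star (((Real.sqrt 2 : ℝ) : ℂ)⁻¹) = (((Real.sqrt 2 : ℝ) : ℂ)⁻¹) := by
    rw [← Complex.ofReal_inv]
    exact Complex.conj_ofReal _
  have hkj : C k j = star (C j k) := (hC.apply k j).symm
  rw [star_smul, star_add, star_smul, mulVec_smul, mulVec_add, mulVec_smul, mulVec_single_one,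
    mulVec_single_one, ← Pi.single_star, ← Pi.single_star, star_one, dotProduct_smul,
    smul_dotProduct, add_dotProduct, smul_dotProduct, single_one_dotProduct, single_one_dotProduct, e]
  simp only [smul_eq_mul, Pi.add_apply, Pi.smul_apply, col_apply]
  rw [← mul_assoc, hs, Complex.re_ofReal_mul]
  congr 1
  rw [hkj]
  have : C j j + ω * C j k + star ω * (star (C j k) + ω * C k k) =
      C j j + (ω * star ω) * C k k + (ω * C j k + star (ω * C j k)) := by
    rw [star_mul']
    ring
  rw [this, hω]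
  simp only [Complex.add_re, one_mul, Complex.star_def, Complex.conj_re]
  ring

lemma wv_unit (j k : Fin N) (hjk : j ≠ k) (ω : ℂ) (hω : ω * star ω = 1) :
    star (wv j k ω) ⬝ᵥ (wv j k ω) = 1 := by
  unfold wv
  have hs : (((Real.sqrt 2 : ℝ) : ℂ)⁻¹) * (((Real.sqrt 2 : ℝ) : ℂ)⁻¹) = ((1 / 2 : ℝ) : ℂ) := by
    rw [← Complex.ofReal_inv, ← Complex.ofReal_mul, ← mul_inv, Real.mul_self_sqrt (by norm_num)]
    norm_num
  have e : star (((Real.sqrt 2 : ℝ) : ℂ)⁻¹) = (((Real.sqrt 2 : ℝ) : ℂ)⁻¹) := by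
    rw [← Complex.ofReal_inv]
    exact Complex.conj_ofReal _
  rw [star_smul, star_add, star_smul, ← Pi.single_star, ← Pi.single_star, star_one, dotProduct_smul,
    smul_dotProduct, add_dotProduct, smul_dotProduct, single_one_dotProduct, single_one_dotProduct, e]
  simp only [smul_eq_mul, Pi.add_apply, Pi.smul_apply, Pi.single_eq_same, Pi.single_eq_of_ne hjk,
    Pi.single_eq_of_ne hjk.symm]
  rw [← mul_assoc, hs]
  have : (1 : ℂ) + ω * 0 + star ω * (0 + ω * 1) = 1 + ω * star ω := by ring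
  rw [this, hω]
  norm_num

lemma sum_four (C : Matrix (Fin N) (Fin N) ℂ) (hC : C.IsHermitian) (j k : Fin N) :
    (star (wv j k 1) ⬝ᵥ (C *ᵥ (wv j k 1))).re ^ 2 +
    (star (wv j k (-1)) ⬝ᵥ (C *ᵥ (wv j k (-1)))).re ^ 2 +
    (star (wv j k Complex.I) ⬝ᵥ (C *ᵥ (wv j k Complex.I))).re ^ 2 +
    (star (wv j k (-Complex.I)) ⬝ᵥ (C *ᵥ (wv j k (-Complex.I)))).re ^ 2 =
      ((C j j).re + (C k k).re) ^ 2 + 2 * Complex.normSq (C j k) := by
  rw [wv_form C hC j k 1 (by simp), wv_form C hC j k (-1) (by simp),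
    wv_form C hC j k Complex.I (by simp), wv_form C hC j k (-Complex.I) (by simp)]
  rw [Complex.normSq_apply]
  simp only [one_mul, neg_mul, Complex.neg_re, Complex.mul_re, Complex.I_re, Complex.I_im, zero_mul,
    zero_sub]
  ring

section

set_option linter.unusedSectionVars false

variable [MeasurableSpace (Matrix.unitaryGroup (Fin N) ℂ)]
  [BorelSpace (Matrix.unitaryGroup (Fin N) ℂ)]
  (ν : Measure (Matrix.unitaryGroup (Fin N) ℂ)) [IsProbabilityMeasure ν]

lemma integrable_of_cont (f : Matrix.unitaryGroup (Fin N) ℂ → ℝ) (hf : Continuous f) :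
    Integrable f ν :=
  hf.integrable_of_hasCompactSupport (HasCompactSupport.of_compactSpace f)

variable [ν.IsMulLeftInvariant]

lemma integral_hf_sq_eq (A : Matrix (Fin N) (Fin N) ℂ) (v v' : Fin N → ℂ)
    (hv : star v ⬝ᵥ v = 1) (hv' : star v' ⬝ᵥ v' = 1) (hN : 0 < N) :
    ∫ S, hf A v S ^ 2 ∂ν = ∫ S, hf A v' S ^ 2 ∂ν := by
  obtain ⟨V, hV⟩ := exists_unitary_map v v' hv hv' hN
  have h1 := integral_mul_left_eq_self (μ := ν) (fun S => hf A v S ^ 2) (star V)
  rw [← h1]
  refine integral_congr_ae (Filter.Eventually.of_forall fun S => ?_)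
  simp only
  rw [hf_mul]
  have : star ((star V : Matrix.unitaryGroup (Fin N) ℂ) : Matrix (Fin N) (Fin N) ℂ) =
    (V : Matrix (Fin N) (Fin N) ℂ) := by
    rw [Unitary.coe_star, star_star]
  rw [this, hV]

lemma continuous_entry (A : Matrix (Fin N) (Fin N) ℂ) (j k : Fin N) :
    Continuous (fun S => conjM A S j k) :=
  (continuous_apply k).comp ((continuous_apply j).comp (continuous_conjM A))

lemma sum_normSq_eq (C : Matrix (Fin N) (Fin N) ℂ) (hC : C.IsHermitian) :
    ∑ j, ∑ k, Complex.normSq (C j k) = (trace (C * C)).re := by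
  rw [trace, Complex.re_sum]
  refine sum_congr rfl fun j _ => ?_
  rw [diag_apply, mul_apply, Complex.re_sum]
  refine sum_congr rfl fun k _ => ?_
  have hkj : C k j = star (C j k) := (hC.apply k j).symm
  rw [hkj, Complex.star_def, Complex.mul_conj, Complex.ofReal_re]

lemma diag_im_zero (C : Matrix (Fin N) (Fin N) ℂ) (hC : C.IsHermitian) (j : Fin N) :
    (C j j).im = 0 := by
  have h := hC.apply j j
  exact Complex.conj_eq_iff_im.mp h

lemma single_unit (j : Fin N) : star (Pi.single j (1 : ℂ)) ⬝ᵥ (Pi.single j (1 : ℂ)) = 1 := by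
  rw [← Pi.single_star, star_one, single_one_dotProduct, Pi.single_eq_same]

omit [BorelSpace (Matrix.unitaryGroup (Fin N) ℂ)] [IsProbabilityMeasure ν] [ν.IsMulLeftInvariant] in
lemma integral_four (f1 f2 f3 f4 : Matrix.unitaryGroup (Fin N) ℂ → ℝ) (h1 : Integrable f1 ν)
    (h2 : Integrable f2 ν) (h3 : Integrable f3 ν) (h4 : Integrable f4 ν) :
    ∫ S, (f1 S + f2 S + f3 S + f4 S) ∂ν = ∫ S, f1 S ∂ν + ∫ S, f2 S ∂ν + ∫ S, f3 S ∂ν +
      ∫ S, f4 S ∂ν := by
  have e1 := integral_add h1 h2
  have e2 := integral_add (h1.add h2) h3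
  have e3 := integral_add ((h1.add h2).add h3) h4
  simp only [Pi.add_apply] at e1 e2 e3
  rw [e3, e2, e1]

lemma haar_second (A : Matrix (Fin N) (Fin N) ℂ) (hA : A.IsHermitian) (htr : trace A = 0)
    (v : Fin N → ℂ) (hv : star v ⬝ᵥ v = 1) (hN : 0 < N) :
    (N : ℝ) * (N + 1) * ∫ S, hf A v S ^ 2 ∂ν = (trace (A * A)).re := by
  set F := ∫ S, hf A v S ^ 2 ∂ν with hF
  have hsingle : ∀ j : Fin N, ∫ S, (conjM A S j j).re ^ 2 ∂ν = F := by
    intro j
    have h := integral_hf_sq_eq ν A (Pi.single j 1) v (single_unit j) hv hN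
    simp only [hf_single] at h
    exact h
  have hcontre : ∀ j k, Continuous fun S => (conjM A S j k).re :=
    fun j k => Complex.continuous_re.comp (continuous_entry A j k)
  have hcontim : ∀ j k, Continuous fun S => (conjM A S j k).im :=
    fun j k => Complex.continuous_im.comp (continuous_entry A j k)
  have hcontns : ∀ j k, Continuous fun S => Complex.normSq (conjM A S j k) :=
    fun j k => Complex.continuous_normSq.comp (continuous_entry A j k)
  let I : Fin N → Fin N → ℝ := fun j k =>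
    ∫ S, (((conjM A S j j).re + (conjM A S k k).re) ^ 2 + 2 * Complex.normSq (conjM A S j k)) ∂ν
  have hI1 : ∀ j k, j ≠ k → I j k = 4 * F := by
    intro j k hjk
    have h1 : I j k = ∫ S, (hf A (wv j k 1) S ^ 2 + hf A (wv j k (-1)) S ^ 2 +
        hf A (wv j k Complex.I) S ^ 2 + hf A (wv j k (-Complex.I)) S ^ 2) ∂ν := by
      refine integral_congr_ae (Filter.Eventually.of_forall fun S => ?_)
      simp only
      rw [← sum_four (conjM A S) (conjM_isHermitian A hA S) j k]
      rfl
    have hc : ∀ ω, Continuous fun S => hf A (wv j k ω) S ^ 2 := fun ω => (continuous_hf A _).pow 2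
    have hi : ∀ ω, Integrable (fun S => hf A (wv j k ω) S ^ 2) ν := fun ω =>
      integrable_of_cont ν _ (hc ω)
    rw [h1, integral_four ν _ _ _ _ (hi _) (hi _) (hi _) (hi _)]
    rw [integral_hf_sq_eq ν A (wv j k 1) v (wv_unit j k hjk 1 (by simp)) hv hN,
      integral_hf_sq_eq ν A (wv j k (-1)) v (wv_unit j k hjk (-1) (by simp)) hv hN,
      integral_hf_sq_eq ν A (wv j k Complex.I) v (wv_unit j k hjk Complex.I (by simp)) hv hN,
      integral_hf_sq_eq ν A (wv j k (-Complex.I)) v (wv_unit j k hjk (-Complex.I) (by simp)) hv hN,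
      ← hF]
    ring
  have hI2 : ∀ j, I j j = 6 * F := by
    intro j
    have h1 : I j j = ∫ S, 6 * (conjM A S j j).re ^ 2 ∂ν := by
      refine integral_congr_ae (Filter.Eventually.of_forall fun S => ?_)
      simp only
      rw [Complex.normSq_apply, diag_im_zero _ (conjM_isHermitian A hA S)]
      ring
    rw [h1, integral_const_mul, hsingle]
  have hsum1 : ∑ j, ∑ k, I j k = 4 * N ^ 2 * F + 2 * N * F := by
    have h1 : ∀ j, ∑ k, I j k = 4 * N * F + 2 * F := by
      intro j
      have h2 : ∀ k, I j k = 4 * F + if j = k then 2 * F else 0 := by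
        intro k
        by_cases h : j = k
        · subst h
          rw [hI2, if_pos rfl]; ring
        · rw [hI1 j k h, if_neg h, add_zero]
      simp only [h2, sum_add_distrib, sum_const, card_univ, Fintype.card_fin, nsmul_eq_mul,
        sum_ite_eq, mem_univ, if_true]
      ring
    simp only [h1, sum_const, card_univ, Fintype.card_fin, nsmul_eq_mul]
    ring
  have hsum2 : ∑ j, ∑ k, I j k = 2 * N * (N * F) + 2 * (trace (A * A)).re := by
    have hint : ∀ j k, Integrable (fun S => ((conjM A S j j).re + (conjM A S k k).re) ^ 2 +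
        2 * Complex.normSq (conjM A S j k)) ν := fun j k =>
      integrable_of_cont ν _ ((((hcontre j j).add (hcontre k k)).pow 2).add
        (continuous_const.mul (hcontns j k)))
    have h1 : ∑ j, ∑ k, I j k = ∫ S, ∑ j, ∑ k, (((conjM A S j j).re + (conjM A S k k).re) ^ 2 +
        2 * Complex.normSq (conjM A S j k)) ∂ν := by
      rw [integral_finsetSum _ (fun j _ => integrable_finsetSum _ fun k _ => hint j k)]
      refine sum_congr rfl fun j _ => ?_
      rw [integral_finsetSum _ (fun k _ => hint j k)]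
    have h2 : ∀ S, ∑ j, ∑ k, (((conjM A S j j).re + (conjM A S k k).re) ^ 2 +
        2 * Complex.normSq (conjM A S j k)) =
        2 * N * ∑ j, (conjM A S j j).re ^ 2 + 2 * (trace (A * A)).re := by
      intro S
      have htr' : ∑ j, (conjM A S j j).re = 0 := by
        have h3 : (trace (conjM A S)).re = 0 := by
          rw [trace_conjM, htr]; rfl
        rw [trace, Complex.re_sum] at h3
        exact h3
      have h4 : ∑ j, ∑ k, Complex.normSq (conjM A S j k) = (trace (A * A)).re := by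
        rw [sum_normSq_eq _ (conjM_isHermitian A hA S), conjM_mul_conjM, trace_conjM]
      have h5 : ∀ j k, (((conjM A S j j).re + (conjM A S k k).re) ^ 2 +
          2 * Complex.normSq (conjM A S j k)) = (conjM A S j j).re ^ 2 + (conjM A S k k).re ^ 2 +
          2 * ((conjM A S j j).re * (conjM A S k k).re) + 2 * Complex.normSq (conjM A S j k) := by
        intro j k; ring
      simp only [h5, sum_add_distrib, ← mul_sum, h4]
      rw [htr']
      simp only [sum_const, card_univ, Fintype.card_fin, nsmul_eq_mul, mul_zero,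
        add_zero]
      rw [← mul_sum]
      ring
    rw [h1]
    simp only [h2]
    rw [integral_add]
    · rw [integral_const_mul, integral_finsetSum]
      · simp only [hsingle, sum_const, card_univ, Fintype.card_fin, nsmul_eq_mul]
        simp
      · intro j _
        exact integrable_of_cont ν _ ((hcontre j j).pow 2)
    · exact integrable_of_cont ν _ (continuous_const.mul
        (continuous_finsetSum _ fun j _ => (hcontre j j).pow 2))
    · exact integrable_const _
  have := hsum1.symm.trans hsum2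
  linarith

lemma hf_sub_smul (A : Matrix (Fin N) (Fin N) ℂ) (c : ℂ) (v : Fin N → ℂ) (hv : star v ⬝ᵥ v = 1)
    (S : Matrix.unitaryGroup (Fin N) ℂ) :
    hf (A - c • 1) v S = hf A v S - c.re := by
  unfold hf
  have h : conjM (A - c • (1 : Matrix (Fin N) (Fin N) ℂ)) S = conjM A S - c • 1 := by
    unfold conjM
    rw [mul_sub, sub_mul, mul_smul_comm, mul_one, smul_mul_assoc]
    congr 2
    exact Unitary.coe_mul_star_self S
  rw [h, sub_mulVec, dotProduct_sub, smul_mulVec, one_mulVec, dotProduct_smul, hv]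
  simp

/-- The variance bound for a quadratic form in a Haar unitary. -/
theorem haar_var (A : Matrix (Fin N) (Fin N) ℂ) (hA : A.IsHermitian)
    (v : Fin N → ℂ) (hv : star v ⬝ᵥ v = 1) (hN : 0 < N) :
    ∫ S, (hf A v S - (trace A).re / N) ^ 2 ∂ν ≤ (trace (A * A)).re / (N * (N + 1)) := by
  have hNR : (0 : ℝ) < N := by exact_mod_cast hN
  set c : ℂ := (((trace A).re / N : ℝ) : ℂ) with hc
  have htrA : (trace A).im = 0 := by
    rw [trace, Complex.im_sum]
    exact sum_eq_zero fun j _ => diag_im_zero A hA j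
  have htrA' : trace A = (((trace A).re : ℝ) : ℂ) := by
    apply Complex.ext
    · simp
    · simp [htrA]
  have hH : (A - c • (1 : Matrix (Fin N) (Fin N) ℂ)).IsHermitian := by
    apply hA.sub
    unfold IsHermitian
    rw [conjTranspose_smul, conjTranspose_one, hc]
    congr 1
    exact Complex.conj_ofReal _
  have htr0 : trace (A - c • (1 : Matrix (Fin N) (Fin N) ℂ)) = 0 := by
    rw [trace_sub, trace_smul, trace_one, htrA', hc, Fintype.card_fin, smul_eq_mul]
    push_cast
    have : (N : ℂ) ≠ 0 := by exact_mod_cast hN.ne'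
    field_simp
    simp
  have h1 := haar_second ν (A - c • (1 : Matrix (Fin N) (Fin N) ℂ)) hH htr0 v hv hN
  simp only [hf_sub_smul A c v hv] at h1
  have h2 : c.re = (trace A).re / N := by rw [hc, Complex.ofReal_re]
  rw [h2] at h1
  have h3 : (trace ((A - c • (1 : Matrix (Fin N) (Fin N) ℂ)) *
      (A - c • (1 : Matrix (Fin N) (Fin N) ℂ)))).re ≤ (trace (A * A)).re := by
    have : (A - c • (1 : Matrix (Fin N) (Fin N) ℂ)) * (A - c • (1 : Matrix (Fin N) (Fin N) ℂ)) =
        A * A - (2 * c) • A + (c * c) • 1 := by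
      rw [sub_mul, mul_sub, mul_sub]
      simp only [mul_smul_comm, smul_mul_assoc, mul_one, one_mul, smul_smul, two_mul, add_smul]
      abel
    rw [this, trace_add, trace_sub, trace_smul, trace_smul, trace_one, htrA', hc, Fintype.card_fin]
    simp only [smul_eq_mul]
    have e : (((trace (A * A)) - 2 * (((trace A).re / N : ℝ) : ℂ) * (((trace A).re : ℝ) : ℂ) +
        (((trace A).re / N : ℝ) : ℂ) * (((trace A).re / N : ℝ) : ℂ) * (N : ℂ))).re =
        (trace (A * A)).re - 2 * ((trace A).re / N) * (trace A).re +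
          ((trace A).re / N) * ((trace A).re / N) * N := by
      rw [Complex.add_re, Complex.sub_re]
      have e1 : (2 * (((trace A).re / N : ℝ) : ℂ) * (((trace A).re : ℝ) : ℂ)) =
        ((2 * ((trace A).re / N) * (trace A).re : ℝ) : ℂ) := by push_cast; ring
      have e2 : ((((trace A).re / N : ℝ) : ℂ) * (((trace A).re / N : ℝ) : ℂ) * (N : ℂ)) =
        ((((trace A).re / N) * ((trace A).re / N) * N : ℝ) : ℂ) := by push_cast; ring
      rw [e1, e2, Complex.ofReal_re, Complex.ofReal_re]
    rw [e]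
    have e3 : 2 * ((trace A).re / N) * (trace A).re - ((trace A).re / N) * ((trace A).re / N) * N =
      (trace A).re ^ 2 / N := by
      field_simp
      ring
    have e4 : 0 ≤ (trace A).re ^ 2 / N := by positivity
    linarith
  rw [le_div_iff₀ (by positivity)]
  linarith

end

end Pool.Agent.Lib.MP_31dc4f_pr
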