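import Pool.Agent.Lib.MP_31dc4f_pr.Conv

/-!
The hierarchy of ordinary differential equations solved by the moments of `μ_τ`.
-/

open Finset

namespace Pool.Agent.Lib.MP_31dc4f_pr

lemma hasDerivAt_term (c : ℝ) (n j : ℕ) (τ : ℝ) :
    HasDerivAt (fun τ : ℝ => c * (n * τ) ^ (j + 1) / (j + 1).factorial)
      (c * n * (n * τ) ^ j / j.factorial) τ := by
  have h1 : HasDerivAt (fun τ : ℝ => (n : ℝ) * τ) n τ := by
    simpa using (hasDerivAt_id τ).const_mul (n : ℝ)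
  have h2 := ((h1.pow (j + 1)).const_mul c).div_const ((j + 1).factorial : ℝ)
  have e : c * (((j + 1 : ℕ) : ℝ) * ((n : ℝ) * τ) ^ (j + 1 - 1) * n) / ((j + 1).factorial : ℝ) =
      c * n * (n * τ) ^ j / j.factorial := by
    rw [Nat.factorial_succ]
    have : (j.factorial : ℝ) ≠ 0 := by positivity
    have h3 : (j : ℝ) + 1 ≠ 0 := by positivity
    push_cast
    field_simp
  rw [← e]
  exact h2

lemma hasDerivAt_bC (n : ℕ) (τ : ℝ) :
    HasDerivAt (fun τ => bC τ n) (n * bC τ n - aC τ n) τ := by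
  rcases Nat.eq_zero_or_pos n with rfl | hn
  · have : (fun τ => bC τ 0) = fun _ => (1 : ℝ) := by
      funext τ; simp [bC]
    rw [this]
    simpa [aC] using hasDerivAt_const τ (1 : ℝ)
  · obtain ⟨m, rfl⟩ : ∃ m, n = m + 1 := ⟨n - 1, by omega⟩
    have hb : ∀ τ, bC τ (m + 1) = (∑ j ∈ range m,
        (1 - ((j + 1 : ℕ) : ℝ) / (m + 1 : ℕ)) * ((m + 1 : ℕ) * τ) ^ (j + 1) / (j + 1).factorial) + 1 := by
      intro τ
      rw [bC, if_neg (by omega), sum_range_succ']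
      simp
    have hb' : (fun τ => bC τ (m + 1)) = fun τ => (∑ j ∈ range m,
        (1 - ((j + 1 : ℕ) : ℝ) / (m + 1 : ℕ)) * ((m + 1 : ℕ) * τ) ^ (j + 1) / (j + 1).factorial) + 1 :=
      funext hb
    have hd := (HasDerivAt.fun_sum (u := range m)
      (A := fun j τ => (1 - ((j + 1 : ℕ) : ℝ) / (m + 1 : ℕ)) * ((m + 1 : ℕ) * τ) ^ (j + 1) /
        (j + 1).factorial)
      (A' := fun j => (1 - ((j + 1 : ℕ) : ℝ) / (m + 1 : ℕ)) * (m + 1 : ℕ) * ((m + 1 : ℕ) * τ) ^ j /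
        j.factorial) (x := τ)
      (fun j _ => hasDerivAt_term _ (m + 1) j τ)).add_const (1 : ℝ)
    rw [hb']
    have hgoal : ((m + 1 : ℕ) : ℝ) * bC τ (m + 1) - aC τ (m + 1) = ∑ j ∈ range m,
        (1 - ((j + 1 : ℕ) : ℝ) / (m + 1 : ℕ)) * (m + 1 : ℕ) * ((m + 1 : ℕ) * τ) ^ j /
        j.factorial := by
     rw [bC, if_neg (by omega), aC, mul_sum, ← sum_sub_distrib, sum_range_succ]
     have hm : ((m + 1 : ℕ) : ℝ) ≠ 0 := by positivity
     have hlast : ((m + 1 : ℕ) : ℝ) * ((1 - (m : ℝ) / ((m + 1 : ℕ) : ℝ)) * (((m + 1 : ℕ) : ℝ) * τ) ^ m /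
        m.factorial) - (((m + 1 : ℕ) : ℝ) * τ) ^ m / m.factorial = 0 := by
      push_cast at hm ⊢
      field_simp
      ring
     rw [hlast, add_zero]
     refine sum_congr rfl fun j _ => ?_
     have hj : (j.factorial : ℝ) ≠ 0 := by positivity
     push_cast at hm ⊢
     field_simp
     ring
    rw [hgoal]
    exact hd

/-- The moment `m_p(τ)` with the convention `m_0 = 1`. -/
noncomputable def mom (τ : ℝ) (p : ℕ) : ℝ := Real.exp (-(p * τ)) * bC τ p

/-- `q_p(τ) = e^{-pτ} ∑_{j<p} (pτ)^j/j!`. -/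
noncomputable def qq (τ : ℝ) (p : ℕ) : ℝ := Real.exp (-(p * τ)) * aC τ p

lemma mom_zero (τ : ℝ) : mom τ 0 = 1 := by simp [mom, bC]

lemma mom_tau_zero (p : ℕ) : mom 0 p = 1 := by
  rcases Nat.eq_zero_or_pos p with rfl | hn
  · exact mom_zero 0
  · obtain ⟨m, rfl⟩ : ∃ m, p = m + 1 := ⟨p - 1, by omega⟩
    simp [mom, bC, sum_range_succ']

lemma hasDerivAt_mom (p : ℕ) (τ : ℝ) : HasDerivAt (fun τ => mom τ p) (-qq τ p) τ := by
  have h1 : HasDerivAt (fun τ : ℝ => -((p : ℝ) * τ)) (-p) τ := by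
    have := ((hasDerivAt_id τ).const_mul (-(p : ℝ)))
    simpa using this
  have h2 := h1.exp.mul (hasDerivAt_bC p τ)
  have e : Real.exp (-((p : ℝ) * τ)) * (-p) * bC τ p + Real.exp (-((p : ℝ) * τ)) *
      (p * bC τ p - aC τ p) = -qq τ p := by
    unfold qq; ring
  rw [← e]
  exact h2

lemma conv_mom (τ : ℝ) (n : ℕ) :
    ∑ p ∈ antidiagonal n, qq τ p.1 * mom τ p.2 = (n : ℝ) * mom τ n := by
  unfold qq mom
  have h : ∀ p ∈ antidiagonal n, Real.exp (-((p.1 : ℝ) * τ)) * aC τ p.1 *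
      (Real.exp (-((p.2 : ℝ) * τ)) * bC τ p.2) = Real.exp (-((n : ℝ) * τ)) * (aC τ p.1 * bC τ p.2) := by
    intro p hp
    have hp' := mem_antidiagonal.mp hp
    have : Real.exp (-((n : ℝ) * τ)) = Real.exp (-((p.1 : ℝ) * τ)) * Real.exp (-((p.2 : ℝ) * τ)) := by
      rw [← Real.exp_add, ← hp']
      congr 1
      push_cast
      ring
    rw [this]
    ring
  rw [sum_congr rfl h, ← mul_sum, conv_identity_aux]
  ring

lemma aC_nonneg {τ : ℝ} (h : 0 ≤ τ) (n : ℕ) : 0 ≤ aC τ n := by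
  unfold aC
  positivity

lemma aC_le_exp {τ : ℝ} (h : 0 ≤ τ) (n : ℕ) : aC τ n ≤ Real.exp (n * τ) := by
  unfold aC
  exact Real.sum_le_exp_of_nonneg (by positivity) n

lemma qq_mem {τ : ℝ} (h : 0 ≤ τ) (n : ℕ) : |qq τ n| ≤ 1 := by
  unfold qq
  rw [abs_of_nonneg (mul_nonneg (Real.exp_pos _).le (aC_nonneg h n))]
  calc Real.exp (-(n * τ)) * aC τ n ≤ Real.exp (-(n * τ)) * Real.exp (n * τ) := by
        gcongr
        exact aC_le_exp h n
    _ = 1 := by rw [← Real.exp_add]; simp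

lemma bC_nonneg {τ : ℝ} (h : 0 ≤ τ) (n : ℕ) : 0 ≤ bC τ n := by
  unfold bC
  split_ifs with h0
  · norm_num
  · refine sum_nonneg fun j hj => ?_
    have hj' := mem_range.mp hj
    have hn : (0 : ℝ) < n := by positivity
    have : (j : ℝ) / n ≤ 1 := by
      rw [div_le_one hn]
      exact_mod_cast hj'.le
    have h1 : 0 ≤ 1 - (j : ℝ) / n := by linarith
    positivity

lemma bC_le_exp {τ : ℝ} (h : 0 ≤ τ) (n : ℕ) : bC τ n ≤ Real.exp (n * τ) := by
  rcases Nat.eq_zero_or_pos n with rfl | hn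
  · simp [bC]
  refine le_trans ?_ (aC_le_exp h n)
  rw [bC, if_neg (by omega), aC]
  refine sum_le_sum fun j hj => ?_
  have hn' : (0 : ℝ) < n := by positivity
  have h1 : (1 - (j : ℝ) / n) ≤ 1 := by
    have : 0 ≤ (j : ℝ) / n := by positivity
    linarith
  have h2 : 0 ≤ ((n : ℝ) * τ) ^ j := by positivity
  gcongr
  nlinarith

lemma mom_mem {τ : ℝ} (h : 0 ≤ τ) (n : ℕ) : |mom τ n| ≤ 1 := by
  unfold mom
  rw [abs_of_nonneg (mul_nonneg (Real.exp_pos _).le (bC_nonneg h n))]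
  calc Real.exp (-(n * τ)) * bC τ n ≤ Real.exp (-(n * τ)) * Real.exp (n * τ) := by
        gcongr
        exact bC_le_exp h n
    _ = 1 := by rw [← Real.exp_add]; simp

/-- `c_j = s_{j+1} - ∑_{i<j} c_i s_{j-i}`. -/
def cS (s : ℕ → ℝ) : ℕ → ℝ
  | j => s (j + 1) - ∑ i : Fin j, cS s i * s (j - i)

lemma cS_eq (s : ℕ → ℝ) (j : ℕ) : cS s j = s (j + 1) - ∑ i ∈ range j, cS s i * s (j - i) := by
  rw [cS, Finset.sum_range]

/-- the drift of the hierarchy. -/
def GS (s : ℕ → ℝ) (p : ℕ) : ℝ := p * s p - ∑ i ∈ range p, cS s i * ((p - 1 - i : ℕ) * s (p - 1 - i))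

lemma cS_series (s : ℕ → ℝ) (h0 : s 0 = 1) :
    (PowerSeries.mk s) * (1 - PowerSeries.X * PowerSeries.mk (cS s)) = 1 := by
  ext n
  rw [mul_sub, mul_one, map_sub]
  rcases n with _ | n
  · simp [h0]
  · rw [← mul_assoc, mul_comm (PowerSeries.mk s) PowerSeries.X, mul_assoc,
      PowerSeries.coeff_succ_X_mul, PowerSeries.coeff_mk, mul_comm (PowerSeries.mk s),
      PowerSeries.coeff_mul]
    simp only [PowerSeries.coeff_mk]
    rw [Finset.Nat.sum_antidiagonal_eq_sum_range_succ (fun a b => cS s a * s b) n,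
      sum_range_succ, Nat.sub_self, h0, mul_one]
    have := cS_eq s n
    rw [PowerSeries.coeff_one, if_neg (by omega)]
    linarith

lemma GS_series (s : ℕ → ℝ) :
    PowerSeries.mk (GS s) = (PowerSeries.mk fun n => (n : ℝ) * s n) *
      (1 - PowerSeries.X * PowerSeries.mk (cS s)) := by
  ext n
  rw [mul_sub, mul_one, map_sub]
  rcases n with _ | n
  · simp [GS]
  · rw [← mul_assoc, mul_comm (PowerSeries.mk fun n => (n : ℝ) * s n) PowerSeries.X, mul_assoc,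
      PowerSeries.coeff_succ_X_mul, PowerSeries.coeff_mk, mul_comm (PowerSeries.mk fun n => (n : ℝ) * s n),
      PowerSeries.coeff_mul]
    simp only [PowerSeries.coeff_mk]
    rw [Finset.Nat.sum_antidiagonal_eq_sum_range_succ (fun a b => cS s a * (b * s b)) n]
    simp [GS]

lemma GS_of_conv (s q : ℕ → ℝ) (h0 : s 0 = 1)
    (h : ∀ n, ∑ p ∈ antidiagonal n, q p.1 * s p.2 = (n : ℝ) * s n) (n : ℕ) : GS s n = q n := by
  have h1 : PowerSeries.mk q * PowerSeries.mk s = PowerSeries.mk fun n => (n : ℝ) * s n := by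
    ext n
    rw [PowerSeries.coeff_mul]
    simp only [PowerSeries.coeff_mk]
    exact h n
  have h2 : PowerSeries.mk (GS s) = PowerSeries.mk q := by
    rw [GS_series, ← h1, mul_assoc, cS_series s h0, mul_one]
  have := congrArg (PowerSeries.coeff n) h2
  simpa using this

lemma GS_mom (τ : ℝ) (n : ℕ) : GS (mom τ) n = qq τ n :=
  GS_of_conv (mom τ) (qq τ) (mom_zero τ) (conv_mom τ) n

lemma cS_bound (s : ℕ → ℝ) (hs : ∀ k, |s k| ≤ 1) (j : ℕ) : |cS s j| ≤ 2 ^ j := by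
  induction j using Nat.strong_induction_on with
  | _ j ih =>
    rw [cS_eq]
    have h1 : |∑ i ∈ range j, cS s i * s (j - i)| ≤ ∑ i ∈ range j, (2 : ℝ) ^ i := by
      refine (abs_sum_le_sum_abs _ _).trans (sum_le_sum fun i hi => ?_)
      rw [abs_mul]
      calc |cS s i| * |s (j - i)| ≤ 2 ^ i * 1 := by
            gcongr
            · exact ih i (mem_range.mp hi)
            · exact hs _
        _ = 2 ^ i := mul_one _
    have h2 : ∑ i ∈ range j, (2 : ℝ) ^ i = 2 ^ j - 1 := by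
      rw [geom_sum_eq (by norm_num)]
      norm_num
    calc |s (j + 1) - ∑ i ∈ range j, cS s i * s (j - i)| ≤
        |s (j + 1)| + |∑ i ∈ range j, cS s i * s (j - i)| := abs_sub _ _
      _ ≤ 1 + (2 ^ j - 1) := add_le_add (hs _) (h2 ▸ h1)
      _ = 2 ^ j := by ring

lemma cS_lip (s s' : ℕ → ℝ) (hs : ∀ k, |s k| ≤ 1) (hs' : ∀ k, |s' k| ≤ 1) (D : ℝ) (n : ℕ)
    (hD : ∀ k ≤ n, |s k - s' k| ≤ D) (j : ℕ) (hj : j + 1 ≤ n) :
    |cS s j - cS s' j| ≤ 4 ^ j * D := by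
  have hD0 : 0 ≤ D := (abs_nonneg _).trans (hD 0 (Nat.zero_le _))
  induction j using Nat.strong_induction_on with
  | _ j ih =>
    rw [cS_eq s j, cS_eq s' j]
    have h1 : |∑ i ∈ range j, (cS s i * s (j - i) - cS s' i * s' (j - i))| ≤
        ∑ i ∈ range j, ((4 : ℝ) ^ i * D + 2 ^ i * D) := by
      refine (abs_sum_le_sum_abs _ _).trans (sum_le_sum fun i hi => ?_)
      have hi' := mem_range.mp hi
      have e : cS s i * s (j - i) - cS s' i * s' (j - i) =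
        (cS s i - cS s' i) * s (j - i) + cS s' i * (s (j - i) - s' (j - i)) := by ring
      rw [e]
      refine (abs_add_le _ _).trans ?_
      rw [abs_mul, abs_mul]
      have a1 : |cS s i - cS s' i| * |s (j - i)| ≤ 4 ^ i * D * 1 := by
        gcongr
        · exact ih i hi' (by omega)
        · exact hs _
      have a2 : |cS s' i| * |s (j - i) - s' (j - i)| ≤ 2 ^ i * D := by
        gcongr
        · exact cS_bound s' hs' i
        · exact hD _ (by omega)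
      linarith
    have h2 : ∑ i ∈ range j, ((4 : ℝ) ^ i * D + 2 ^ i * D) = ((4 ^ j - 1) / 3 + (2 ^ j - 1)) * D := by
      rw [sum_add_distrib, ← sum_mul, ← sum_mul, geom_sum_eq (by norm_num), geom_sum_eq (by norm_num)]
      ring
    have h3 : (s (j + 1) - ∑ i ∈ range j, cS s i * s (j - i)) -
        (s' (j + 1) - ∑ i ∈ range j, cS s' i * s' (j - i)) = (s (j + 1) - s' (j + 1)) -
        ∑ i ∈ range j, (cS s i * s (j - i) - cS s' i * s' (j - i)) := by
      rw [sum_sub_distrib]; ring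
    rw [h3]
    have h4 : (2 : ℝ) ^ j ≤ 1 / 3 + 2 / 3 * 4 ^ j := by
      have : (4 : ℝ) ^ j = 2 ^ j * 2 ^ j := by
        rw [← mul_pow]; norm_num
      rw [this]
      have h5 : (1 : ℝ) ≤ 2 ^ j := one_le_pow₀ (by norm_num)
      nlinarith
    calc |(s (j + 1) - s' (j + 1)) - ∑ i ∈ range j, (cS s i * s (j - i) - cS s' i * s' (j - i))|
        ≤ |s (j + 1) - s' (j + 1)| + |∑ i ∈ range j, (cS s i * s (j - i) - cS s' i * s' (j - i))| :=
          abs_sub _ _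
      _ ≤ D + ((4 ^ j - 1) / 3 + (2 ^ j - 1)) * D := add_le_add (hD _ (by omega)) (h2 ▸ h1)
      _ = ((4 ^ j - 1) / 3 + 2 ^ j) * D := by ring
      _ ≤ 4 ^ j * D := by
          gcongr
          linarith

/-- A Lipschitz constant for `GS · p`. -/
noncomputable def LG (p : ℕ) : ℝ := (p : ℝ) + ∑ i ∈ range p, ((4 : ℝ) ^ i + 2 ^ i) * (p : ℝ)

lemma LG_nonneg (p : ℕ) : 0 ≤ LG p := by
  unfold LG
  positivity

lemma GS_lip (s s' : ℕ → ℝ) (hs : ∀ k, |s k| ≤ 1) (hs' : ∀ k, |s' k| ≤ 1) (D : ℝ) (p : ℕ)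
    (hD : ∀ k ≤ p, |s k - s' k| ≤ D) : |GS s p - GS s' p| ≤ LG p * D := by
  have hD0 : 0 ≤ D := (abs_nonneg _).trans (hD 0 (Nat.zero_le _))
  unfold GS LG
  have h3 : ((p : ℝ) * s p - ∑ i ∈ range p, cS s i * ((p - 1 - i : ℕ) * s (p - 1 - i))) -
      ((p : ℝ) * s' p - ∑ i ∈ range p, cS s' i * ((p - 1 - i : ℕ) * s' (p - 1 - i))) =
      p * (s p - s' p) - ∑ i ∈ range p, (cS s i * ((p - 1 - i : ℕ) * s (p - 1 - i)) -
        cS s' i * ((p - 1 - i : ℕ) * s' (p - 1 - i))) := by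
    rw [sum_sub_distrib]; ring
  rw [h3]
  have h1 : |∑ i ∈ range p, (cS s i * ((p - 1 - i : ℕ) * s (p - 1 - i)) -
        cS s' i * ((p - 1 - i : ℕ) * s' (p - 1 - i)))| ≤
        ∑ i ∈ range p, ((4 ^ i + 2 ^ i) * p) * D := by
    refine (abs_sum_le_sum_abs _ _).trans (sum_le_sum fun i hi => ?_)
    have hi' := mem_range.mp hi
    have hc : ((p - 1 - i : ℕ) : ℝ) ≤ p := by
      exact_mod_cast (by omega : p - 1 - i ≤ p)
    have e : cS s i * ((p - 1 - i : ℕ) * s (p - 1 - i)) -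
        cS s' i * ((p - 1 - i : ℕ) * s' (p - 1 - i)) =
      ((p - 1 - i : ℕ) : ℝ) * ((cS s i - cS s' i) * s (p - 1 - i) +
        cS s' i * (s (p - 1 - i) - s' (p - 1 - i))) := by ring
    rw [e, abs_mul, Nat.abs_cast]
    have a1 : |cS s i - cS s' i| * |s (p - 1 - i)| ≤ 4 ^ i * D * 1 := by
      gcongr
      · exact cS_lip s s' hs hs' D p hD i (by omega)
      · exact hs _
    have a2 : |cS s' i| * |s (p - 1 - i) - s' (p - 1 - i)| ≤ 2 ^ i * D := by
      gcongr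
      · exact cS_bound s' hs' i
      · exact hD _ (by omega)
    have a3 : |(cS s i - cS s' i) * s (p - 1 - i) + cS s' i * (s (p - 1 - i) - s' (p - 1 - i))| ≤
        (4 ^ i + 2 ^ i) * D := by
      refine (abs_add_le _ _).trans ?_
      rw [abs_mul, abs_mul]
      linarith
    calc ((p - 1 - i : ℕ) : ℝ) * |(cS s i - cS s' i) * s (p - 1 - i) +
        cS s' i * (s (p - 1 - i) - s' (p - 1 - i))| ≤ p * ((4 ^ i + 2 ^ i) * D) := by
          gcongr
      _ = ((4 ^ i + 2 ^ i) * p) * D := by ring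
  calc |p * (s p - s' p) - ∑ i ∈ range p, (cS s i * ((p - 1 - i : ℕ) * s (p - 1 - i)) -
        cS s' i * ((p - 1 - i : ℕ) * s' (p - 1 - i)))| ≤
      |p * (s p - s' p)| + |∑ i ∈ range p, (cS s i * ((p - 1 - i : ℕ) * s (p - 1 - i)) -
        cS s' i * ((p - 1 - i : ℕ) * s' (p - 1 - i)))| := abs_sub _ _
    _ ≤ p * D + ∑ i ∈ range p, ((4 ^ i + 2 ^ i) * p) * D := by
        refine add_le_add ?_ h1
        rw [abs_mul, Nat.abs_cast]
        gcongr
        exact hD p le_rfl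
    _ = ((p : ℝ) + ∑ i ∈ range p, ((4 : ℝ) ^ i + 2 ^ i) * (p : ℝ)) * D := by
        rw [add_mul, sum_mul]

lemma GS_bound (s : ℕ → ℝ) (hs : ∀ k, |s k| ≤ 1) (p : ℕ) : |GS s p| ≤ LG p := by
  have h := GS_lip s (fun _ => 0) hs (by simp) 1 p (fun k _ => by simpa using hs k)
  have h0 : GS (fun _ => (0 : ℝ)) p = 0 := by simp [GS]
  rw [h0] at h
  simpa using h

end Pool.Agent.Lib.MP_31dc4f_pr
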