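import Pool.Agent.Lib.MP_31dc4f_pr.Gron

/-!
Convergence of moments, existence of `μ_τ`, convergence in probability.
-/

open Finset Matrix MeasureTheory ProbabilityTheory Filter Topology

namespace Pool.Agent.Lib.MP_31dc4f_pr

/-- The empirical distribution of the eigenvalues of `Bᴴ B`. -/
noncomputable def empM {N : ℕ} (B : Matrix (Fin N) (Fin N) ℂ) : Measure ℝ :=
  (N : ENNReal)⁻¹ • ∑ k : Fin N,
    Measure.dirac ((isHermitian_conjTranspose_mul_self B).eigenvalues k)

lemma integral_empM {N : ℕ} (B : Matrix (Fin N) (Fin N) ℂ) (f : ℝ → ℝ) :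
    ∫ x, f x ∂(empM B) =
      (∑ k : Fin N, f ((isHermitian_conjTranspose_mul_self B).eigenvalues k)) / N := by
  unfold empM
  rw [integral_smul_measure, integral_finsetSum_measure]
  · simp only [integral_dirac, ENNReal.toReal_inv, ENNReal.toReal_natCast, smul_eq_mul]
    ring
  · intro i _
    exact integrable_dirac enorm_lt_top

lemma xm_eq_sum {N : ℕ} (B : Matrix (Fin N) (Fin N) ℂ) (p : ℕ) :
    xm B p = (∑ k : Fin N, (isHermitian_conjTranspose_mul_self B).eigenvalues k ^ p) / N := by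
  unfold xm
  rw [trace_pow_eq_sum _ (isHermitian_conjTranspose_mul_self B) p]
  congr 1
  rw [Complex.re_sum]
  refine sum_congr rfl fun i _ => ?_
  rw [← Complex.ofReal_pow, Complex.ofReal_re]

lemma integral_empM_poly {N : ℕ} (B : Matrix (Fin N) (Fin N) ℂ) (q : Polynomial ℝ) :
    ∫ x, q.eval x ∂(empM B) = ∑ i ∈ range (q.natDegree + 1), q.coeff i * xm B i := by
  rw [integral_empM]
  simp only [Polynomial.eval_eq_sum_range, xm_eq_sum]
  rw [sum_comm, sum_div]
  refine sum_congr rfl fun i _ => ?_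
  rw [← mul_sum, mul_div_assoc]

section oneN

variable {N : ℕ}
variable [MeasurableSpace (Matrix.unitaryGroup (Fin N) ℂ)]
  [BorelSpace (Matrix.unitaryGroup (Fin N) ℂ)]
  {Ω : Type*} [MeasurableSpace Ω] (P : Measure Ω) [IsProbabilityMeasure P]
  (S : ℕ → Ω → Matrix.unitaryGroup (Fin N) ℂ) (hm : ∀ i, Measurable (S i))
  (hind : iIndepFun S P) (hinv : ∀ i, (P.map (S i)).IsMulLeftInvariant)
  (Q : Matrix (Fin N) (Fin N) ℂ) (hQ : Q.IsHermitian) (hQ2 : Q * Q = Q) (hN : 0 < N)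
  (hr : Q.rank = N - 1)

/-- the error bound -/
noncomputable def errB (τ : ℝ) (N k l : ℕ) : ℝ :=
  Real.exp (Lam k * (l / N)) * ((k + 1) / Real.sqrt N + 1 / N) + |(l : ℝ) / N - τ|

include hm hind hinv hQ hQ2 hN hr in
theorem integral_xm_sub_mom_le (k l : ℕ) (τ : ℝ) (hτ : 0 ≤ τ) :
    ∫ ω, |xm (prodB Q (fun i => S i ω) l) k - mom τ k| ∂P ≤ errB τ N k l := by
  obtain ⟨v, hv, hQv⟩ := exists_unit_of_proj Q hN hQ hQ2 hr
  have h1 := integral_xm_sub_le P S hm hind hinv Q hQ hQ2 hN v hv hQv k l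
  have hl : (0 : ℝ) ≤ (l : ℝ) / N := by positivity
  have h2 : |mom ((l : ℝ) / N) k - mom τ k| ≤ |(l : ℝ) / N - τ| := by
    rcases le_total τ ((l : ℝ) / N) with h | h
    · rw [abs_of_nonneg (by linarith : 0 ≤ (l : ℝ) / N - τ)]
      exact mom_lip k hτ h
    · rw [abs_sub_comm, abs_sub_comm ((l : ℝ) / N) τ, abs_of_nonneg (by linarith : 0 ≤ τ - (l : ℝ) / N)]
      exact mom_lip k hl h
  have h3 : ∫ ω, |xm (prodB Q (fun i => S i ω) l) k - mom τ k| ∂P ≤
      ∫ ω, (|xm (prodB Q (fun i => S i ω) l) k - mom ((l : ℝ) / N) k| + |(l : ℝ) / N - τ|) ∂P := by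
    apply integral_mono (integrable_dev_term P S hm Q hQ hQ2 hN l k _)
      ((integrable_dev_term P S hm Q hQ hQ2 hN l k _).add (integrable_const _))
    intro ω
    simp only [Pi.add_apply]
    calc |xm (prodB Q (fun i => S i ω) l) k - mom τ k| =
        |(xm (prodB Q (fun i => S i ω) l) k - mom ((l : ℝ) / N) k) +
          (mom ((l : ℝ) / N) k - mom τ k)| := by ring_nf
      _ ≤ _ := abs_add_le _ _
      _ ≤ _ := by gcongr
  refine h3.trans ?_
  rw [integral_add (integrable_dev_term P S hm Q hQ hQ2 hN l k _) (integrable_const _),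
    integral_const]
  simp only [probReal_univ, smul_eq_mul, one_mul]
  unfold errB
  linarith

end oneN

lemma tendsto_errB (τ : ℝ) (L : ℕ → ℕ) (hL : Tendsto (fun N => (L N : ℝ) / N) atTop (𝓝 τ)) (k : ℕ) :
    Tendsto (fun N => errB τ N k (L N)) atTop (𝓝 0) := by
  unfold errB
  have h1 : Tendsto (fun N : ℕ => Real.exp (Lam k * ((L N : ℝ) / N))) atTop
      (𝓝 (Real.exp (Lam k * τ))) :=
    (Real.continuous_exp.tendsto _).comp (hL.const_mul _)
  have hs : Tendsto (fun N : ℕ => Real.sqrt (N : ℝ)) atTop atTop :=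
    (Real.tendsto_sqrt_atTop).comp tendsto_natCast_atTop_atTop
  have h2 : Tendsto (fun N : ℕ => ((k : ℝ) + 1) / Real.sqrt N) atTop (𝓝 0) :=
    tendsto_const_nhds.div_atTop hs
  have h3 : Tendsto (fun N : ℕ => 1 / (N : ℝ)) atTop (𝓝 0) := tendsto_one_div_atTop_nhds_zero_nat
  have h4 : Tendsto (fun N : ℕ => |(L N : ℝ) / N - τ|) atTop (𝓝 0) := by
    have := (hL.sub_const τ).abs
    simpa using this
  have := (h1.mul (h2.add h3)).add h4
  simpa using this

end Pool.Agent.Lib.MP_31dc4f_pr
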