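import Pool.Agent.Lib.MP_31dc4f_pr.Hier

/-!
Traces of powers of `(1 - u uᴴ) M`.
-/

open Finset Matrix

namespace Pool.Agent.Lib.MP_31dc4f_pr

variable {N : ℕ}

lemma mulVec_pow_expansion (M : Matrix (Fin N) (Fin N) ℂ) (u : Fin N → ℂ) (r : ℕ → ℝ)
    (hr : ∀ k, star u ⬝ᵥ (M ^ k *ᵥ u) = (r k : ℂ)) (j : ℕ) :
    ((1 - vecMulVec u (star u)) * M) ^ j *ᵥ u =
      M ^ j *ᵥ u - ∑ i ∈ range j, (cS r i : ℂ) • (M ^ (j - 1 - i) *ᵥ u) := by
  induction j with
  | zero => simp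
  | succ j ih =>
    rw [pow_succ', ← mulVec_mulVec, ih, sub_mul, one_mul, sub_mulVec, ← mulVec_mulVec,
      vecMulVec_mulVec]
    have h1 : M *ᵥ (M ^ j *ᵥ u - ∑ i ∈ range j, (cS r i : ℂ) • (M ^ (j - 1 - i) *ᵥ u)) =
        M ^ (j + 1) *ᵥ u - ∑ i ∈ range j, (cS r i : ℂ) • (M ^ (j - i) *ᵥ u) := by
      rw [mulVec_sub, mulVec_mulVec, ← pow_succ', mulVec_sum]
      congr 1
      refine sum_congr rfl fun i hi => ?_
      have := mem_range.mp hi
      rw [mulVec_smul, mulVec_mulVec, ← pow_succ']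
      congr 4
      omega
    rw [h1]
    have h2 : star u ⬝ᵥ (M ^ (j + 1) *ᵥ u - ∑ i ∈ range j, (cS r i : ℂ) • (M ^ (j - i) *ᵥ u)) =
        (cS r j : ℂ) := by
      rw [dotProduct_sub, hr, dotProduct_sum, cS_eq r j]
      push_cast
      congr 1
      refine sum_congr rfl fun i _ => ?_
      rw [dotProduct_smul, hr, smul_eq_mul]
    rw [h2, sum_range_succ]
    simp only [op_smul_eq_smul]
    have h3 : j + 1 - 1 - j = 0 := by omega
    rw [h3, pow_zero, one_mulVec]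
    have h4 : ∀ i ∈ range j, (cS r i : ℂ) • (M ^ (j + 1 - 1 - i) *ᵥ u) =
      (cS r i : ℂ) • (M ^ (j - i) *ᵥ u) := by
      intro i _
      congr 4
    rw [sum_congr rfl h4]
    abel

lemma dot_pow_expansion (M : Matrix (Fin N) (Fin N) ℂ) (u : Fin N → ℂ) (r : ℕ → ℝ)
    (hr : ∀ k, star u ⬝ᵥ (M ^ k *ᵥ u) = (r k : ℂ)) (j k : ℕ) (hk : 1 ≤ k) :
    star u ⬝ᵥ (M ^ k *ᵥ (((1 - vecMulVec u (star u)) * M) ^ j *ᵥ u)) =
      (r (k + j) : ℂ) - ∑ i ∈ range j, (cS r i : ℂ) * (r (k + j - 1 - i) : ℂ) := by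
  rw [mulVec_pow_expansion M u r hr, mulVec_sub, mulVec_mulVec, ← pow_add, mulVec_sum,
    dotProduct_sub, hr, dotProduct_sum]
  congr 1
  refine sum_congr rfl fun i hi => ?_
  have := mem_range.mp hi
  rw [mulVec_smul, mulVec_mulVec, ← pow_add, dotProduct_smul, hr, smul_eq_mul]
  congr 4
  omega

lemma trace_mul_vecMulVec_mul (A B : Matrix (Fin N) (Fin N) ℂ) (u w : Fin N → ℂ) :
    trace (A * vecMulVec u w * B) = w ⬝ᵥ (B *ᵥ (A *ᵥ u)) := by
  rw [trace_mul_comm, ← mul_assoc, mul_vecMulVec, trace_vecMulVec, mulVec_mulVec, dotProduct_comm]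

/-- The key trace formula. -/
theorem trace_pow_sub (M : Matrix (Fin N) (Fin N) ℂ) (u : Fin N → ℂ) (r : ℕ → ℝ)
    (hr : ∀ k, star u ⬝ᵥ (M ^ k *ᵥ u) = (r k : ℂ)) (p : ℕ) :
    trace (M ^ p) - trace (((1 - vecMulVec u (star u)) * M) ^ p) = (GS r p : ℂ) := by
  set W := (1 - vecMulVec u (star u)) * M with hW
  have htel : M ^ p - W ^ p = ∑ j ∈ range p, (W ^ j * vecMulVec u (star u) * M ^ (p - j)) := by
    have h1 : ∀ j ∈ range p, W ^ j * vecMulVec u (star u) * M ^ (p - j) =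
        W ^ j * M ^ (p - j) - W ^ (j + 1) * M ^ (p - (j + 1)) := by
      intro j hj
      have hj' := mem_range.mp hj
      have e : p - j = (p - (j + 1)) + 1 := by omega
      rw [e, pow_succ' M, pow_succ W]
      have : M - W = vecMulVec u (star u) * M := by
        rw [hW, sub_mul, one_mul, sub_sub_cancel]
      calc W ^ j * vecMulVec u (star u) * (M * M ^ (p - (j + 1)))
          = W ^ j * (vecMulVec u (star u) * M) * M ^ (p - (j + 1)) := by
            simp only [mul_assoc]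
        _ = W ^ j * (M - W) * M ^ (p - (j + 1)) := by rw [this]
        _ = _ := by
            rw [mul_sub, sub_mul]
            simp only [mul_assoc]
    rw [sum_congr rfl h1, sum_range_sub' (fun j => W ^ j * M ^ (p - j))]
    simp
  rw [← trace_sub, htel, trace_sum]
  have h2 : ∀ j ∈ range p, trace (W ^ j * vecMulVec u (star u) * M ^ (p - j)) =
      (r p : ℂ) - ∑ i ∈ range j, (cS r i : ℂ) * (r (p - 1 - i) : ℂ) := by
    intro j hj
    have hj' := mem_range.mp hj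
    rw [trace_mul_vecMulVec_mul, dot_pow_expansion M u r hr j (p - j) (by omega)]
    have e : p - j + j = p := by omega
    rw [e]
  rw [sum_congr rfl h2, sum_sub_distrib, sum_const, card_range, nsmul_eq_mul, GS]
  push_cast
  congr 1
  -- swap the two sums
  have h3 : ∑ j ∈ range p, ∑ i ∈ range j, (cS r i : ℂ) * (r (p - 1 - i) : ℂ) =
      ∑ i ∈ range p, ∑ j ∈ Ico (i + 1) p, (cS r i : ℂ) * (r (p - 1 - i) : ℂ) := by
    apply Finset.sum_comm'
    intro x y
    simp only [mem_range, mem_Ico]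
    omega
  rw [h3]
  refine sum_congr rfl fun i hi => ?_
  rw [sum_const, Nat.card_Ico, nsmul_eq_mul]
  have e : p - (i + 1) = p - 1 - i := by omega
  rw [e]
  ring

lemma mul_pow_succ_eq (Y Z : Matrix (Fin N) (Fin N) ℂ) (p : ℕ) :
    (Y * Z) ^ (p + 1) = Y * (Z * Y) ^ p * Z := by
  induction p with
  | zero => simp
  | succ p ih =>
    rw [pow_succ, ih, pow_succ (Z * Y) p]
    simp only [mul_assoc]

lemma trace_mul_pow_comm (Y Z : Matrix (Fin N) (Fin N) ℂ) (p : ℕ) :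
    trace ((Y * Z) ^ p) = trace ((Z * Y) ^ p) := by
  rcases p with _ | p
  · simp
  · rw [mul_pow_succ_eq, trace_mul_comm, ← mul_assoc, ← pow_succ']

end Pool.Agent.Lib.MP_31dc4f_pr
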