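import Pool.Agent.Lib.MP_31dc4f_pr.Step

/-!
The random model: expectation recursion.
-/

open Finset Matrix MeasureTheory ProbabilityTheory

open scoped ComplexOrder

namespace Pool.Agent.Lib.MP_31dc4f_pr

variable {N : ℕ}

instance instSCT_matrix : SecondCountableTopology (Matrix (Fin N) (Fin N) ℂ) :=
  inferInstanceAs (SecondCountableTopology (Fin N → Fin N → ℂ))

instance instSCT_unitary : SecondCountableTopology (Matrix.unitaryGroup (Fin N) ℂ) :=
  inferInstanceAs (SecondCountableTopology
    (Matrix.unitaryGroup (Fin N) ℂ : Set (Matrix (Fin N) (Fin N) ℂ)))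

/-- extension of a finite family of unitaries by `1`. -/
noncomputable def extU (l : ℕ) (x : ↥(range l) → Matrix.unitaryGroup (Fin N) ℂ) :
    ℕ → Matrix.unitaryGroup (Fin N) ℂ :=
  fun i => if h : i ∈ range l then x ⟨i, h⟩ else 1

lemma prodB_extU (Q : Matrix (Fin N) (Fin N) ℂ) (S : ℕ → Matrix.unitaryGroup (Fin N) ℂ) (l : ℕ) :
    prodB Q (extU l (fun i => S i)) l = prodB Q S l := by
  apply prodB_congr
  intro i hi
  simp [extU, mem_range.mp hi]

lemma continuous_extU (l i : ℕ) : Continuous (fun x : ↥(range l) →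
    Matrix.unitaryGroup (Fin N) ℂ => extU l x i) := by
  unfold extU
  by_cases h : i ∈ range l
  · simp only [h, dif_pos]
    exact continuous_apply _
  · simp only [h, dif_neg, not_false_eq_true]
    exact continuous_const

lemma continuous_prodB (Q : Matrix (Fin N) (Fin N) ℂ) (l m : ℕ) :
    Continuous (fun x : ↥(range l) → Matrix.unitaryGroup (Fin N) ℂ =>
      prodB Q (extU l x) m) := by
  induction m with
  | zero => simp only [prodB]; exact continuous_const
  | succ m ih =>
    simp only [prodB]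
    exact (continuous_const.mul (continuous_subtype_val.comp (continuous_extU l m))).mul ih

lemma continuous_xm (p : ℕ) : Continuous (fun B : Matrix (Fin N) (Fin N) ℂ => xm B p) := by
  unfold xm
  refine Continuous.div_const (Complex.continuous_re.comp ?_) _
  exact ((continuous_id.matrix_conjTranspose.mul continuous_id).pow p).matrix_trace

lemma continuous_rm (v : Fin N → ℂ) (k : ℕ) :
    Continuous (fun z : Matrix (Fin N) (Fin N) ℂ × Matrix.unitaryGroup (Fin N) ℂ =>
      rm z.1 v z.2 k) := by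
  unfold rm hf conjM
  refine Complex.continuous_re.comp ?_
  have h : Continuous (fun z : Matrix (Fin N) (Fin N) ℂ × Matrix.unitaryGroup (Fin N) ℂ =>
    (z.2 : Matrix (Fin N) (Fin N) ℂ)) := continuous_subtype_val.comp continuous_snd
  have h1 : Continuous (fun z : Matrix (Fin N) (Fin N) ℂ × Matrix.unitaryGroup (Fin N) ℂ =>
    (z.1 * z.1ᴴ) ^ k) := (continuous_fst.mul continuous_fst.matrix_conjTranspose).pow k
  exact continuous_const.dotProduct (((h.mul h1).mul h.star).matrix_mulVec continuous_const)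

lemma continuous_xm_ext (Q : Matrix (Fin N) (Fin N) ℂ) (l k : ℕ) :
    Continuous (fun x : ↥(range l) → Matrix.unitaryGroup (Fin N) ℂ =>
      xm (prodB Q (extU l x) l) k) :=
  (continuous_xm k).comp (continuous_prodB Q l l)

lemma continuous_rm_ext (Q : Matrix (Fin N) (Fin N) ℂ) (v : Fin N → ℂ) (l k : ℕ) :
    Continuous (fun z : (↥(range l) → Matrix.unitaryGroup (Fin N) ℂ) ×
      Matrix.unitaryGroup (Fin N) ℂ => rm (prodB Q (extU l z.1) l) v z.2 k) := by
  have h0 : Continuous (fun z : (↥(range l) → Matrix.unitaryGroup (Fin N) ℂ) ×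
      Matrix.unitaryGroup (Fin N) ℂ => prodB Q (extU l z.1) l) :=
    (continuous_prodB Q l l).comp continuous_fst
  have h1 : Continuous (fun z : (↥(range l) → Matrix.unitaryGroup (Fin N) ℂ) ×
      Matrix.unitaryGroup (Fin N) ℂ => (prodB Q (extU l z.1) l, z.2)) :=
    h0.prodMk continuous_snd
  have h2 := (continuous_rm v k).comp h1
  simp only [Function.comp_def] at h2
  exact h2

section

variable [MeasurableSpace (Matrix.unitaryGroup (Fin N) ℂ)]
  [BorelSpace (Matrix.unitaryGroup (Fin N) ℂ)]
  {Ω : Type*} [MeasurableSpace Ω] (P : Measure Ω) [IsProbabilityMeasure P]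
  (S : ℕ → Ω → Matrix.unitaryGroup (Fin N) ℂ) (hm : ∀ i, Measurable (S i))
  (hind : iIndepFun S P) (hinv : ∀ i, (P.map (S i)).IsMulLeftInvariant)
  (Q : Matrix (Fin N) (Fin N) ℂ) (hQ : Q.IsHermitian) (hQ2 : Q * Q = Q) (hN : 0 < N)
  (v : Fin N → ℂ) (hv : star v ⬝ᵥ v = 1)

include hm in
lemma measurable_xm (l p : ℕ) : Measurable (fun ω => xm (prodB Q (fun i => S i ω) l) p) := by
  have h1 : (fun ω => xm (prodB Q (fun i => S i ω) l) p) =
      (fun x => xm (prodB Q (extU l x) l) p) ∘ (fun ω => fun i : ↥(range l) => S i ω) := by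
    funext ω
    simp only [Function.comp]
    rw [prodB_extU Q (fun i => S i ω) l]
  rw [h1]
  refine Measurable.comp ?_ (measurable_pi_lambda _ fun i => hm i)
  exact (continuous_xm_ext Q l p).measurable

include hm in
lemma measurable_rm (l k : ℕ) :
    Measurable (fun ω => rm (prodB Q (fun i => S i ω) l) v (S l ω) k) := by
  have h1 : (fun ω => rm (prodB Q (fun i => S i ω) l) v (S l ω) k) =
      (fun z : (↥(range l) → Matrix.unitaryGroup (Fin N) ℂ) ×
        Matrix.unitaryGroup (Fin N) ℂ => rm (prodB Q (extU l z.1) l) v z.2 k) ∘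
      (fun ω => ((fun i : ↥(range l) => S i ω), S l ω)) := by
    funext ω
    simp only [Function.comp]
    rw [prodB_extU Q (fun i => S i ω) l]
  rw [h1]
  have hX : Measurable (fun ω => fun i : ↥(range l) => S i ω) :=
    measurable_pi_lambda _ fun i => hm i
  refine Measurable.comp ?_ (hX.prodMk (hm l))
  exact (continuous_rm_ext Q v l k).measurable

include hm hind hinv hQ hQ2 hN hv in
/-- second moment of the fluctuation -/
theorem integral_sq_le (l k : ℕ) :
    ∫ ω, (rm (prodB Q (fun i => S i ω) l) v (S l ω) k -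
      xm (prodB Q (fun i => S i ω) l) k) ^ 2 ∂P ≤ 1 / (N + 1) := by
  let Φ : (↥(range l) → Matrix.unitaryGroup (Fin N) ℂ) ×
        Matrix.unitaryGroup (Fin N) ℂ → ℝ := fun z =>
    (rm (prodB Q (extU l z.1) l) v z.2 k - xm (prodB Q (extU l z.1) l) k) ^ 2
  have hΦ1 : Continuous (fun z : (↥(range l) → Matrix.unitaryGroup (Fin N) ℂ) ×
        Matrix.unitaryGroup (Fin N) ℂ => rm (prodB Q (extU l z.1) l) v z.2 k) :=
    continuous_rm_ext Q v l k
  have hΦ2 : Continuous (fun z : (↥(range l) → Matrix.unitaryGroup (Fin N) ℂ) ×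
        Matrix.unitaryGroup (Fin N) ℂ => xm (prodB Q (extU l z.1) l) k) :=
    (continuous_xm_ext Q l k).comp continuous_fst
  have hΦ : Continuous Φ := (hΦ1.sub hΦ2).pow 2
  let X : Ω → (↥(range l) → Matrix.unitaryGroup (Fin N) ℂ) := fun ω i => S i ω
  have hX : Measurable X := measurable_pi_lambda _ fun i => hm i
  have hXY : IndepFun X (S l) P := by
    have h1 := hind.indepFun_finset (range l) {l} (by simp) hm
    have hψ : Measurable (fun y : (↥({l} : Finset ℕ) →
      Matrix.unitaryGroup (Fin N) ℂ) => y ⟨l, mem_singleton_self _⟩) := measurable_pi_apply _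
    exact h1.comp measurable_id hψ
  have hprod := (indepFun_iff_map_prod_eq_prod_map_map hX.aemeasurable
    (hm l).aemeasurable).mp hXY
  have hp1 : IsProbabilityMeasure (P.map X) := Measure.isProbabilityMeasure_map hX.aemeasurable
  have hp2 : IsProbabilityMeasure (P.map (S l)) :=
    Measure.isProbabilityMeasure_map (hm l).aemeasurable
  have hinv' := hinv l
  have h1 : ∫ ω, (rm (prodB Q (fun i => S i ω) l) v (S l ω) k -
      xm (prodB Q (fun i => S i ω) l) k) ^ 2 ∂P = ∫ z, Φ z ∂(P.map fun ω => (X ω, S l ω)) := by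
    rw [integral_map (hX.prodMk (hm l)).aemeasurable
      hΦ.measurable.aestronglyMeasurable]
    refine integral_congr_ae (Filter.Eventually.of_forall fun ω => ?_)
    simp only [Φ, X]
    rw [prodB_extU Q (fun i => S i ω) l]
  have hint : Integrable Φ ((P.map X).prod (P.map (S l))) :=
    hΦ.integrable_of_hasCompactSupport (HasCompactSupport.of_compactSpace Φ)
  rw [h1, hprod, integral_prod Φ hint]
  have h2 : ∀ x, ∫ y, Φ (x, y) ∂(P.map (S l)) ≤ 1 / (N + 1) := fun x =>
    rm_var (P.map (S l)) (prodB Q (extU l x) l) (norm_prodB_le Q hQ hQ2 hN _ l) hN v hv k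
  calc ∫ x, ∫ y, Φ (x, y) ∂(P.map (S l)) ∂(P.map X) ≤
      ∫ _x, (1 / ((N : ℝ) + 1)) ∂(P.map X) :=
        integral_mono hint.integral_prod_left (integrable_const _) h2
    _ = 1 / (N + 1) := by simp

end

end Pool.Agent.Lib.MP_31dc4f_pr
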