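import Pool.Agent.Lib.MP_31dc4f_pr.Haar

/-!
The deterministic one-step relation.
-/

open Finset Matrix MeasureTheory

open scoped Matrix.Norms.L2Operator ComplexOrder

namespace Pool.Agent.Lib.MP_31dc4f_pr

variable {N : ℕ}

/-- `B_l = (Q S_{l-1})(Q S_{l-2})⋯(Q S_0)`. -/
def prodB (Q : Matrix (Fin N) (Fin N) ℂ) (S : ℕ → Matrix.unitaryGroup (Fin N) ℂ) :
    ℕ → Matrix (Fin N) (Fin N) ℂ
  | 0 => 1
  | (l + 1) => (Q * (S l : Matrix (Fin N) (Fin N) ℂ)) * prodB Q S l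

lemma prodB_congr (Q : Matrix (Fin N) (Fin N) ℂ) (S S' : ℕ → Matrix.unitaryGroup (Fin N) ℂ) (l : ℕ)
    (h : ∀ i ∈ range l, S i = S' i) : prodB Q S l = prodB Q S' l := by
  induction l with
  | zero => rfl
  | succ l ih =>
    rw [prodB, prodB, ih, h l (by simp)]
    intro i hi
    apply h
    simp only [mem_range] at hi ⊢
    omega

/-- structure of a rank `N-1` orthogonal projection -/
lemma exists_unit_of_proj (Q : Matrix (Fin N) (Fin N) ℂ) (hN : 0 < N) (hQ : Q.IsHermitian)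
    (hQ2 : Q * Q = Q) (hr : Q.rank = N - 1) :
    ∃ v : Fin N → ℂ, star v ⬝ᵥ v = 1 ∧ Q = 1 - vecMulVec v (star v) := by
  have hker : Module.finrank ℂ (LinearMap.ker Q.mulVecLin) = 1 := by
    have h := LinearMap.finrank_range_add_finrank_ker Q.mulVecLin
    rw [← Matrix.rank, hr] at h
    simp only [Module.finrank_fintype_fun_eq_card, Fintype.card_fin] at h
    omega
  obtain ⟨⟨w, hw⟩, hw0, hspan⟩ := finrank_eq_one_iff'.mp hker
  have hw' : Q *ᵥ w = 0 := hw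
  have hw0' : w ≠ 0 := fun h => hw0 (by simp [h])
  have hpos : 0 < (star w ⬝ᵥ w).re := by
    have h1 : (0 : ℂ) < star w ⬝ᵥ w := dotProduct_star_self_pos_iff.mpr hw0'
    exact (Complex.lt_def.mp h1).1
  have him : (star w ⬝ᵥ w).im = 0 := by
    have h1 : (0 : ℂ) < star w ⬝ᵥ w := dotProduct_star_self_pos_iff.mpr hw0'
    exact (Complex.lt_def.mp h1).2.symm
  have hreal : star w ⬝ᵥ w = (((star w ⬝ᵥ w).re : ℝ) : ℂ) := by
    apply Complex.ext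
    · simp
    · simp [him]
  set a : ℝ := (star w ⬝ᵥ w).re with ha
  let v : Fin N → ℂ := (((Real.sqrt a)⁻¹ : ℝ) : ℂ) • w
  have hsq : (((Real.sqrt a)⁻¹ : ℝ) : ℂ) * (((Real.sqrt a)⁻¹ : ℝ) : ℂ) * (a : ℂ) = 1 := by
    rw [← Complex.ofReal_mul, ← Complex.ofReal_mul, ← mul_inv, Real.mul_self_sqrt hpos.le,
      inv_mul_cancel₀ hpos.ne', Complex.ofReal_one]
  have hstar : star (((Real.sqrt a)⁻¹ : ℝ) : ℂ) = (((Real.sqrt a)⁻¹ : ℝ) : ℂ) :=
    Complex.conj_ofReal _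
  have hv1 : star v ⬝ᵥ v = 1 := by
    simp only [v]
    rw [star_smul, dotProduct_smul, smul_dotProduct, hstar, hreal, smul_eq_mul, smul_eq_mul,
      ← mul_assoc, hsq]
  have hQv : Q *ᵥ v = 0 := by
    simp only [v]
    rw [mulVec_smul, hw', smul_zero]
  have hrow : star v ᵥ* Q = 0 := by
    have : star (Q *ᵥ v) = star v ᵥ* Qᴴ := star_mulVec Q v
    rw [hQ.eq] at this
    rw [← this, hQv, star_zero]
  refine ⟨v, hv1, ?_⟩
  have hE : ∀ x, (1 - Q) *ᵥ x = (star v ⬝ᵥ x) • v := by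
    intro x
    have h1 : Q *ᵥ ((1 - Q) *ᵥ x) = 0 := by
      rw [mulVec_mulVec, mul_sub, mul_one, hQ2, sub_self, zero_mulVec]
    obtain ⟨c, hc⟩ := hspan ⟨(1 - Q) *ᵥ x, h1⟩
    have hc' : c • w = (1 - Q) *ᵥ x := congrArg Subtype.val hc
    have hsne : (((Real.sqrt a)⁻¹ : ℝ) : ℂ) ≠ 0 := by
      rw [Ne, Complex.ofReal_eq_zero, inv_eq_zero]
      exact (Real.sqrt_pos.mpr hpos).ne'
    have hc2 : (c * (((Real.sqrt a)⁻¹ : ℝ) : ℂ)⁻¹) • v = (1 - Q) *ᵥ x := by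
      simp only [v]
      rw [smul_smul, mul_assoc, inv_mul_cancel₀ hsne, mul_one, hc']
    have hc3 : c * (((Real.sqrt a)⁻¹ : ℝ) : ℂ)⁻¹ = star v ⬝ᵥ x := by
      have h2 : star v ⬝ᵥ ((c * (((Real.sqrt a)⁻¹ : ℝ) : ℂ)⁻¹) • v) = star v ⬝ᵥ ((1 - Q) *ᵥ x) := by
        rw [hc2]
      rw [dotProduct_smul, hv1, smul_eq_mul, mul_one, sub_mulVec, one_mulVec, dotProduct_sub,
        dotProduct_mulVec (star v) Q x, hrow, zero_dotProduct, sub_zero] at h2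
      exact h2
    rw [← hc3, hc2]
  have h3 : 1 - Q = vecMulVec v (star v) := by
    apply Matrix.ext_iff_mulVec.mpr
    intro x
    rw [hE x, vecMulVec_mulVec, op_smul_eq_smul]
  rw [← h3, sub_sub_cancel]

lemma norm_proj_le (Q : Matrix (Fin N) (Fin N) ℂ) (hQ : Q.IsHermitian) (hQ2 : Q * Q = Q) :
    ‖Q‖ ≤ 1 := by
  have h := l2_opNorm_conjTranspose_mul_self Q
  rw [hQ.eq, hQ2] at h
  by_contra hlt
  push Not at hlt
  nlinarith

lemma norm_unitary_le (U : Matrix.unitaryGroup (Fin N) ℂ) :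
    ‖(U : Matrix (Fin N) (Fin N) ℂ)‖ ≤ 1 := by
  rcases Nat.eq_zero_or_pos N with h0 | hN
  · subst h0
    have : (U : Matrix (Fin 0) (Fin 0) ℂ) = 0 := Subsingleton.elim _ _
    rw [this, norm_zero]
    norm_num
  · have : Nonempty (Fin N) := ⟨⟨0, hN⟩⟩
    exact (CStarRing.norm_coe_unitary U).le

lemma norm_prodB_le (Q : Matrix (Fin N) (Fin N) ℂ) (hQ : Q.IsHermitian) (hQ2 : Q * Q = Q)
    (hN : 0 < N) (S : ℕ → Matrix.unitaryGroup (Fin N) ℂ) (l : ℕ) : ‖prodB Q S l‖ ≤ 1 := by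
  have : Nonempty (Fin N) := ⟨⟨0, hN⟩⟩
  induction l with
  | zero => simp [prodB]
  | succ l ih =>
    rw [prodB]
    have h1 : ‖Q * (S l : Matrix (Fin N) (Fin N) ℂ)‖ ≤ 1 := by
      refine (norm_mul_le _ _).trans ?_
      have := norm_proj_le Q hQ hQ2
      have h2 := norm_unitary_le (S l)
      nlinarith [norm_nonneg Q, norm_nonneg (S l : Matrix (Fin N) (Fin N) ℂ)]
    refine (norm_mul_le _ _).trans ?_
    nlinarith [norm_nonneg (Q * (S l : Matrix (Fin N) (Fin N) ℂ)), norm_nonneg (prodB Q S l)]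

/-- normalised moments `x_p = (1/N) tr (BᴴB)^p`. -/
noncomputable def xm (B : Matrix (Fin N) (Fin N) ℂ) (p : ℕ) : ℝ := (trace ((Bᴴ * B) ^ p)).re / N

/-- The quadratic forms `r_k = vᴴ S (B Bᴴ)^k Sᴴ v`. -/
noncomputable def rm (B : Matrix (Fin N) (Fin N) ℂ) (v : Fin N → ℂ)
    (U : Matrix.unitaryGroup (Fin N) ℂ) (k : ℕ) : ℝ := hf ((B * Bᴴ) ^ k) v U

lemma xm_abs_le (B : Matrix (Fin N) (Fin N) ℂ) (hB : ‖B‖ ≤ 1) (hN : 0 < N) (p : ℕ) :
    |xm B p| ≤ 1 := by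
  have h := trace_pow_re_mem B hB p
  have hNR : (0 : ℝ) < N := by exact_mod_cast hN
  unfold xm
  rw [abs_of_nonneg (div_nonneg h.1 hNR.le), div_le_one hNR]
  exact h.2

lemma xm_eq (B : Matrix (Fin N) (Fin N) ℂ) (p : ℕ) : xm B p = (trace ((B * Bᴴ) ^ p)).re / N := by
  unfold xm
  rw [trace_mul_pow_comm]

lemma norm_mul_conj_le (B : Matrix (Fin N) (Fin N) ℂ) (hB : ‖B‖ ≤ 1) : ‖B * Bᴴ‖ ≤ 1 := by
  refine (norm_mul_le _ _).trans ?_
  rw [l2_opNorm_conjTranspose]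
  nlinarith [norm_nonneg B]

lemma star_mulVec_unit (v : Fin N → ℂ) (hv : star v ⬝ᵥ v = 1) (U : Matrix.unitaryGroup (Fin N) ℂ) :
    star (star (U : Matrix (Fin N) (Fin N) ℂ) *ᵥ v) ⬝ᵥ (star (U : Matrix (Fin N) (Fin N) ℂ) *ᵥ v) = 1 := by
  rw [star_mulVec, ← dotProduct_mulVec, mulVec_mulVec]
  have e : (star (U : Matrix (Fin N) (Fin N) ℂ))ᴴ = (U : Matrix (Fin N) (Fin N) ℂ) :=
    conjTranspose_conjTranspose _
  have e2 : (U : Matrix (Fin N) (Fin N) ℂ) * star (U : Matrix (Fin N) (Fin N) ℂ) = 1 :=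
    Unitary.coe_mul_star_self U
  rw [e, e2, one_mulVec, hv]

lemma dot_conj_eq (A : Matrix (Fin N) (Fin N) ℂ) (v : Fin N → ℂ)
    (U : Matrix.unitaryGroup (Fin N) ℂ) :
    star (star (U : Matrix (Fin N) (Fin N) ℂ) *ᵥ v) ⬝ᵥ (A *ᵥ (star (U : Matrix (Fin N) (Fin N) ℂ) *ᵥ v))
      = star v ⬝ᵥ (conjM A U *ᵥ v) := by
  unfold conjM
  rw [star_mulVec, ← dotProduct_mulVec, mulVec_mulVec, mulVec_mulVec]
  have e : (star (U : Matrix (Fin N) (Fin N) ℂ))ᴴ = (U : Matrix (Fin N) (Fin N) ℂ) :=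
    conjTranspose_conjTranspose _
  rw [e]

lemma isHermitian_pow (B : Matrix (Fin N) (Fin N) ℂ) (k : ℕ) : ((B * Bᴴ) ^ k).IsHermitian :=
  (isHermitian_mul_conjTranspose_self B).pow k

lemma rm_eq (B : Matrix (Fin N) (Fin N) ℂ) (v : Fin N → ℂ)
    (U : Matrix.unitaryGroup (Fin N) ℂ) (k : ℕ) :
    star (star (U : Matrix (Fin N) (Fin N) ℂ) *ᵥ v) ⬝ᵥ
      ((B * Bᴴ) ^ k *ᵥ (star (U : Matrix (Fin N) (Fin N) ℂ) *ᵥ v)) = ((rm B v U k : ℝ) : ℂ) := by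
  rw [dot_conj_eq]
  unfold rm hf
  have him := dot_im_eq_zero _ (conjM_isHermitian _ (isHermitian_pow B k) U) v
  apply Complex.ext
  · simp
  · simp [him]

lemma rm_abs_le (B : Matrix (Fin N) (Fin N) ℂ) (hB : ‖B‖ ≤ 1) (hN : 0 < N) (v : Fin N → ℂ)
    (hv : star v ⬝ᵥ v = 1) (U : Matrix.unitaryGroup (Fin N) ℂ) (k : ℕ) : |rm B v U k| ≤ 1 := by
  have h := norm_dot_le ((B * Bᴴ) ^ k) (norm_pow_le_one _ (norm_mul_conj_le B hB) hN k)
    (star (U : Matrix (Fin N) (Fin N) ℂ) *ᵥ v) (star_mulVec_unit v hv U)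
  rw [rm_eq] at h
  simpa using h

/-- One step of the chain. -/
theorem xm_step (Q : Matrix (Fin N) (Fin N) ℂ) (hQ : Q.IsHermitian) (hQ2 : Q * Q = Q)
    (v : Fin N → ℂ) (hQv : Q = 1 - vecMulVec v (star v)) (S : ℕ → Matrix.unitaryGroup (Fin N) ℂ) (l p : ℕ) :
    xm (prodB Q S (l + 1)) p = xm (prodB Q S l) p - GS (rm (prodB Q S l) v (S l)) p / N := by
  set B := prodB Q S l with hB
  set U : Matrix (Fin N) (Fin N) ℂ := (S l : Matrix (Fin N) (Fin N) ℂ) with hU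
  have h1 : prodB Q S (l + 1) * (prodB Q S (l + 1))ᴴ = (Q * U) * ((B * Bᴴ) * (Uᴴ * Q)) := by
    rw [prodB, conjTranspose_mul, conjTranspose_mul, hQ.eq, ← hB, ← hU]
    simp only [mul_assoc]
  have h2 : ((B * Bᴴ) * (Uᴴ * Q)) * (Q * U) = (B * Bᴴ) * (Uᴴ * Q * U) := by
    calc ((B * Bᴴ) * (Uᴴ * Q)) * (Q * U) = (B * Bᴴ) * (Uᴴ * (Q * Q) * U) := by
          simp only [mul_assoc]
      _ = _ := by rw [hQ2]
  have h3 : Uᴴ * Q * U = 1 - vecMulVec (star U *ᵥ v) (star (star U *ᵥ v)) := by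
    rw [hQv, mul_sub, sub_mul, mul_one]
    have e1 : Uᴴ * U = 1 := Unitary.coe_star_mul_self (S l)
    rw [e1, mul_vecMulVec, vecMulVec_mul]
    congr 2
    rw [star_mulVec]
    congr 1
    exact (conjTranspose_conjTranspose U).symm
  have h4 := trace_pow_sub (B * Bᴴ) (star U *ᵥ v) (rm B v (S l))
    (fun k => rm_eq B v (S l) k) p
  rw [xm_eq, xm_eq, h1, trace_mul_pow_comm, h2, h3, trace_mul_pow_comm (B * Bᴴ)]
  have h5 : (trace (((1 - vecMulVec (star U *ᵥ v) (star (star U *ᵥ v))) * (B * Bᴴ)) ^ p)).re =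
      (trace ((B * Bᴴ) ^ p)).re - GS (rm B v (S l)) p := by
    have := congrArg Complex.re h4
    rw [Complex.sub_re, Complex.ofReal_re] at this
    linarith
  rw [h5, sub_div]

/-- conditional variance bound -/
theorem rm_var [MeasurableSpace (Matrix.unitaryGroup (Fin N) ℂ)]
    [BorelSpace (Matrix.unitaryGroup (Fin N) ℂ)]
    (ν : Measure (Matrix.unitaryGroup (Fin N) ℂ)) [IsProbabilityMeasure ν] [ν.IsMulLeftInvariant]
    (B : Matrix (Fin N) (Fin N) ℂ) (hB : ‖B‖ ≤ 1) (hN : 0 < N) (v : Fin N → ℂ)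
    (hv : star v ⬝ᵥ v = 1) (k : ℕ) :
    ∫ U, (rm B v U k - xm B k) ^ 2 ∂ν ≤ 1 / (N + 1) := by
  have h := haar_var ν ((B * Bᴴ) ^ k) (isHermitian_pow B k) v hv hN
  rw [xm_eq]
  unfold rm
  refine h.trans ?_
  rw [← pow_add, trace_mul_pow_comm]
  have h1 := (trace_pow_re_mem B hB (k + k)).2
  have hNR : (0 : ℝ) < N := by exact_mod_cast hN
  rw [div_le_div_iff₀ (by positivity) (by positivity)]
  nlinarith

end Pool.Agent.Lib.MP_31dc4f_pr
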